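import Pool.Agent.H39.BurckelSixB
import Pool.Agent.H39.S7.Fam

set_option autoImplicit false

namespace Pool.Agent.H39.S7

open Classical Pool.Agent.H39.Burckel

variable {V : Type} [Fintype V]

/-- The local configuration around a vertex `x` of out-degree seven in an oriented graph of minimum
out-degree seven without Seymour vertices: `S = N(x)`, `M = N2(x)`, `W` the out-neighbours of `M`
outside `S ∪ M`. -/
structure Cfg7 (G : Digraph V) (S M W : Finset V) : Prop where
  hG : Oriented G
  hbad : ∀ v, (N2 G v).card < (N G v).card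
  hdeg : ∀ v, 7 ≤ (N G v).card
  hSM : ∀ v ∈ S, N G v ⊆ S ∪ M
  hMW : ∀ y ∈ M, N G y ⊆ S ∪ M ∪ W
  hdSM : Disjoint S M
  hdSW : Disjoint S W
  hdMW : Disjoint M W
  hMin : ∀ y ∈ M, ∃ v ∈ S, G.Adj v y
  hWin : ∀ w ∈ W, ∃ y ∈ M, G.Adj y w
  hS : S.card = 7
  hM : M.card ≤ 6

variable (G : Digraph V) (S M W : Finset V)

/-- `A u`, the out-degree inside `S` -/
noncomputable def cA (u : V) : ℕ := (N G u ∩ S).card
/-- `C u`, the number of second out-neighbours in `S` -/
noncomputable def cC (u : V) : ℕ := (N2 G u ∩ S).card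
/-- `D u`, the number of out-neighbours in `M` -/
noncomputable def cD (u : V) : ℕ := (N G u ∩ M).card
/-- number of vertices of `M` that are neither out-neighbours nor second out-neighbours of `u` -/
noncomputable def cz (u : V) : ℕ := (M \ (N G u ∪ N2 G u)).card
/-- the number of arcs from `M` to `S` -/
noncomputable def cT : ℕ := ∑ v ∈ S, inc G M v

/-- from `x` -/
theorem cfg7_of (G : Digraph V) (hG : Oriented G) (hbad : ∀ v, (N2 G v).card < (N G v).card)
    (hdeg : ∀ v, 7 ≤ (N G v).card) (x : V) (hx : (N G x).card = 7) :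
    Cfg7 G (N G x) (N2 G x) (((N2 G x).biUnion fun y => N G y) \ (N G x ∪ N2 G x)) where
  hG := hG
  hbad := hbad
  hdeg := hdeg
  hSM := fun v hv => N_subset G hG ((mem_N G).1 hv)
  hMW := by
    intro y hy w hw
    simp only [Finset.mem_union, Finset.mem_sdiff, Finset.mem_biUnion]
    by_cases h : w ∈ N G x ∨ w ∈ N2 G x
    · exact Or.inl h
    · exact Or.inr ⟨⟨y, hy, hw⟩, h⟩
  hdSM := N_disj G x
  hdSW := by
    rw [Finset.disjoint_left]
    intro w h1 h2
    simp only [Finset.mem_union, Finset.mem_sdiff] at h2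
    exact h2.2 (Or.inl h1)
  hdMW := by
    rw [Finset.disjoint_left]
    intro w h1 h2
    simp only [Finset.mem_union, Finset.mem_sdiff] at h2
    exact h2.2 (Or.inr h1)
  hMin := by
    intro y hy
    obtain ⟨-, -, v, h1, h2⟩ := (mem_N2 G).1 hy
    exact ⟨v, (mem_N G).2 h1, h2⟩
  hWin := by
    intro w hw
    simp only [Finset.mem_sdiff, Finset.mem_biUnion] at hw
    obtain ⟨⟨y, hy, h⟩, -⟩ := hw
    exact ⟨y, hy, (mem_N G).1 h⟩
  hS := hx
  hM := by
    have := hbad x
    omega

end Pool.Agent.H39.S7
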