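import Pool.Agent.H39.S7.G.Base

/-! Row G4 (about 90 lines). `T = 0` is impossible.
* `expand`: if all vertices of an oriented graph are bad and `D ⊆ N u` has at most six elements and is a proper subset (only
  `u → y` for `y ∈ D` is kept), then `|N(D) \ D| ≥ |D|`, where `N(D) = D.biUnion N`.
  Proof: suppose not. Let `G'` be `G` with the out-arcs of `u` replaced by `u → y`, `y ∈ D`
  (`G'.Adj a b := G.Adj a b ∧ (a = u → b ∈ D)`). `G'` is oriented. `N G' u = D`, and
  `N2 G' u ⊆ N(D) \ D` has fewer than `|D|` elements (no `y ∈ D` has `y → y`... note `u ∉ N(D)`, `y ≠ u`, so the arcs of `y` are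
  unchanged). For `v ≠ u`: `N G' v = N G v` and `N2 G' v ⊆ N2 G v`. So all vertices of `G'` are bad, and `u` has out-degree
  `|D| ≤ 6`, contradicting `kaneko_locke` (in `Pool/Agent/H39/BurckelSixB.lean`; use `isSeymour_iff`).
* `T_pos`: suppose `T = 0`, so no arc from `M` to `S`. For every `u ∈ S` put `D = N u ∩ M` (`|D| ≤ 6`); `N(D) \ D` is disjoint
  from `S` and (as `N y ⊆ N u ∪ N2 u`, `N u ⊆ S ∪ M`) is contained in `N2 u \ S`. So
  `|N2 u ∩ S| ≤ |N2 u| - |D| < |N u| - |D| = |N u ∩ S|`. In the induced graph `induce G S` (in `BurckelCore.lean`, with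
  `ncard_induce_N`, `ncard_induce_N2`, `N2in_subset`) every vertex is then bad, but the out-degrees are at most six
  (`S.card = 7`), contradicting `kaneko_locke`. -/

set_option autoImplicit false

namespace Pool.Agent.H39.S7

open Classical Pool.Agent.H39.Burckel

variable {V : Type} [Fintype V] {G : Digraph V} {S M W : Finset V}

theorem expand (hG : Oriented G) (hbad : ∀ v, (N2 G v).card < (N G v).card) (u : V) (D : Finset V)
    (hD : D ⊆ N G u) (h6 : D.card ≤ 6) :
    D.card ≤ ((D.biUnion fun y => N G y) \ D).card := by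
  by_contra hlt
  push Not at hlt
  let G' : Digraph V := ⟨fun a b => G.Adj a b ∧ (a = u → b ∈ D)⟩
  have hG' : Oriented G' := fun a b h h' => hG a b h.1 h'.1
  have hNu : N G' u = D := by
    ext b
    rw [mem_N]
    constructor
    · rintro ⟨-, h⟩
      exact h rfl
    · intro h
      exact ⟨(mem_N G).1 (hD h), fun _ => h⟩
  have hN2u : N2 G' u ⊆ (D.biUnion fun y => N G y) \ D := by
    intro w hw
    rw [mem_N2] at hw
    obtain ⟨-, h1, y, h2, h3⟩ := hw
    rw [Finset.mem_sdiff, Finset.mem_biUnion]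
    refine ⟨⟨y, h2.2 rfl, (mem_N G).2 h3.1⟩, ?_⟩
    intro h4
    exact h1 ⟨(mem_N G).1 (hD h4), fun _ => h4⟩
  have hNv : ∀ v, v ≠ u → N G' v = N G v := by
    intro v hv
    ext b
    rw [mem_N, mem_N]
    constructor
    · rintro ⟨h, -⟩
      exact h
    · intro h
      exact ⟨h, fun e => absurd e hv⟩
  have hN2v : ∀ v, v ≠ u → N2 G' v ⊆ N2 G v := by
    intro v hv w hw
    rw [mem_N2] at hw ⊢
    obtain ⟨h0, h1, y, h2, h3⟩ := hw
    refine ⟨h0, ?_, y, h2.1, h3.1⟩
    intro h4
    exact h1 ⟨h4, fun e => absurd e hv⟩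
  obtain ⟨v, hv⟩ := kaneko_locke G' hG' u (by rw [hNu]; exact h6)
  rw [isSeymour_iff] at hv
  by_cases hvu : v = u
  · subst hvu
    have h1 := Finset.card_le_card hN2u
    rw [hNu] at hv
    omega
  · have h1 := Finset.card_le_card (hN2v v hvu)
    have h2 := hbad v
    rw [hNv v hvu] at hv
    omega

theorem Cfg7.T_pos (c : Cfg7 G S M W) : 1 ≤ cT G S M := by
  by_contra hcon
  have hT : cT G S M = 0 := by omega
  have hno : ∀ y ∈ M, ∀ v ∈ S, ¬ G.Adj y v := by
    intro y hy v hv h
    unfold cT at hT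
    have h1 : inc G M v = 0 := (Finset.sum_eq_zero_iff.1 hT) v hv
    unfold inc at h1
    rw [Finset.card_eq_zero] at h1
    have h2 : y ∈ M.filter fun y => G.Adj y v := Finset.mem_filter.2 ⟨hy, h⟩
    rw [h1] at h2
    exact absurd h2 (Finset.notMem_empty y)
  -- inside `S` all vertices are bad
  have hin : ∀ u ∈ S, (N2in G S u).card < (N G u ∩ S).card := by
    intro u hu
    have hD : N G u ∩ M ⊆ N G u := Finset.inter_subset_left
    have h6 : (N G u ∩ M).card ≤ 6 :=
      (Finset.card_le_card Finset.inter_subset_right).trans c.hM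
    have h1 := expand c.hG c.hbad u (N G u ∩ M) hD h6
    have h2 : ((N G u ∩ M).biUnion fun y => N G y) \ (N G u ∩ M) ⊆ N2 G u \ S := by
      intro w hw
      rw [Finset.mem_sdiff, Finset.mem_biUnion] at hw
      obtain ⟨⟨y, hy, hyw⟩, hwD⟩ := hw
      rw [Finset.mem_inter, mem_N] at hy
      rw [mem_N] at hyw
      have hwS : w ∉ S := fun h => hno y hy.2 w h hyw
      rw [Finset.mem_sdiff]
      refine ⟨mem_N2_of G c.hG hy.1 hyw ?_, hwS⟩
      intro huw
      rcases Finset.mem_union.1 (c.hSM u hu ((mem_N G).2 huw)) with h | h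
      · exact hwS h
      · exact hwD (Finset.mem_inter.2 ⟨(mem_N G).2 huw, h⟩)
    have h3 := Finset.card_le_card h2
    have h4 : N G u \ S = N G u ∩ M := by
      ext w
      rw [Finset.mem_sdiff, Finset.mem_inter]
      constructor
      · rintro ⟨ha, hb⟩
        rcases Finset.mem_union.1 (c.hSM u hu ha) with h | h
        · exact absurd h hb
        · exact ⟨ha, h⟩
      · rintro ⟨ha, hb⟩
        exact ⟨ha, fun h => (Finset.disjoint_left.1 c.hdSM) h hb⟩
    have h5 := Finset.card_inter_add_card_sdiff (N G u) S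
    have h6' := Finset.card_inter_add_card_sdiff (N2 G u) S
    rw [h4] at h5
    have h7 := c.hbad u
    have h8 := Finset.card_le_card (N2in_subset G S u)
    omega
  obtain ⟨u, hu⟩ : S.Nonempty := by
    rw [← Finset.card_pos, c.hS]
    norm_num
  have hle : (N (induce G S) ⟨u, hu⟩).card ≤ 6 := by
    rw [← ncard_N, ncard_induce_N]
    have h1 : N G u ∩ S ⊆ S.erase u := by
      intro w hw
      rw [Finset.mem_inter, mem_N] at hw
      rw [Finset.mem_erase]
      exact ⟨fun e => by subst e; exact c.hG _ _ hw.1 hw.1, hw.2⟩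
    have h2 := Finset.card_le_card h1
    rw [Finset.card_erase_of_mem hu, c.hS] at h2
    exact h2
  obtain ⟨v, hv⟩ := kaneko_locke (induce G S) (induce_oriented G c.hG S) ⟨u, hu⟩ hle
  unfold IsSeymour at hv
  rw [ncard_induce_N, ncard_induce_N2] at hv
  have := hin v.1 v.2
  omega

end Pool.Agent.H39.S7
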