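import Pool.Agent.H39.S7.G.H3a

/-! Row G9c (about 110 lines). `|M| = 6`, `T ≥ 10`, all `A u = 3`.
Notation `A, C, D, t`, `T`, `K = |W|` of the files above; `B y = |N y ∩ S|` for `y ∈ M`;
`β u = ∑_{y ∈ M, y → u} B y`.
(7) `|M| = 6`, `T ≥ 8` (so `T ≥ 10` by (6)): `t u ≤ 2`, and `t u = 2` forces `D u = 4`, `β u ≤ T - 10`; some `u` has `t u = 2` as `T > 7`;
  `β u ≥ t u = 2`, so `T ≥ 12`. At least `T - 7` vertices have `t u = 2`. `T ≤ 14` (`Cfg7.T_le`).
  `T = 12`: at least five `u` have `t u = 2`, `β u ≤ 2`, so `B y = 1` for both `y → u`. These `y` are distinct for distinct `u` (as `B y = 1`):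
  `10` distinct elements in `M`, `|M| = 6`. (`10 ≤ ∑_{u ∈ X} inc Y1 u = ∑_{y∈Y1} |N y ∩ X| ≤ |Y1| ≤ 6`, `Y1 = {y ∈ M : B y = 1}`.)
  `T ≥ 13`: `∑_{u∈S} β u = ∑_{y∈M} (B y)^2 ≥ 5 T - 36` (since `(B-2)(B-3) ≥ 0`, `∑ B = T`, `|M| = 6`). `T = 13`: six vertices have `t = 2`,
  `β ≤ 3`, one has `t = 1`, `D ≤ 5`, `β ≤ 8` (need ≥ 5): `∑ β ≤ 26 < 29`. `T = 14`: `∑ β ≤ 7 * 4 = 28 < 34`. -/

set_option autoImplicit false

namespace Pool.Agent.H39.S7

open Classical Pool.Agent.H39.Burckel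

variable {V : Type} [Fintype V] {G : Digraph V} {S M W : Finset V}

theorem Cfg7.reg_big (c : Cfg7 G S M W) (hmin : ∀ u ∈ S, 3 ≤ cA G S u) (hM : M.card = 6)
    (h10 : 10 ≤ cT G S M) : False := by
  have hf := c.reg_facts hmin
  have hT : ∑ v ∈ S, inc G M v = cT G S M := rfl
  -- the linear bound
  have hlin : ∀ u ∈ S, 5 * inc G M u + cb G S M u ≤ cT G S M ∧ inc G M u ≤ cb G S M u ∧
      inc G M u ≤ 2 := by
    intro u hu
    obtain ⟨-, -, h1, h2, h3, h4⟩ := hf u hu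
    rw [hM] at h2
    have n4 : need 3 3 4 = 10 := by decide
    have n5 : need 3 3 5 = 5 := by decide
    have n6 : need 3 3 6 = 0 := by decide
    have hD : cD G M u = 4 ∨ cD G M u = 5 ∨ cD G M u = 6 := by omega
    rcases hD with h | h | h
    · rw [h, n4] at h4
      omega
    · rw [h, n5] at h4
      omega
    · rw [h, n6] at h4
      omega
  have hsum : 5 * cT G S M + ∑ u ∈ S, cb G S M u ≤ 7 * cT G S M := by
    rw [← hT, Finset.mul_sum, ← Finset.sum_add_distrib, hT]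
    refine (Finset.sum_le_sum fun u hu => (hlin u hu).1).trans ?_
    rw [Finset.sum_const, c.hS, smul_eq_mul]
  have hB : ∑ y ∈ M, (N G y ∩ S).card = cT G S M := dc G M S
  have hlow : 5 * cT G S M ≤ ∑ u ∈ S, cb G S M u + 36 := by
    rw [sum_cb, ← hB, Finset.mul_sum]
    have h1 : ∑ y ∈ M, ((N G y ∩ S).card * (N G y ∩ S).card + 6) =
        ∑ y ∈ M, (N G y ∩ S).card * (N G y ∩ S).card + 36 := by
      rw [Finset.sum_add_distrib, Finset.sum_const, hM]
      rfl
    rw [← h1]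
    refine Finset.sum_le_sum fun y _ => ?_
    obtain ⟨b, hb⟩ : ∃ b, b = (N G y ∩ S).card := ⟨_, rfl⟩
    rw [← hb]
    rcases Nat.lt_or_ge b 3 with h | h
    · interval_cases b <;> norm_num
    · obtain ⟨k, rfl⟩ := Nat.exists_eq_add_of_le h
      nlinarith
  have h12 : cT G S M ≤ 12 := by omega
  -- some vertex has two in-neighbours
  have hge : 12 ≤ cT G S M := by
    by_contra hcon
    have h1 : ∀ u ∈ S, inc G M u ≤ 1 := by
      intro u hu
      have := hlin u hu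
      omega
    have h2 : ∑ v ∈ S, inc G M v ≤ ∑ v ∈ S, 1 := Finset.sum_le_sum h1
    rw [hT, Finset.sum_const, c.hS, smul_eq_mul] at h2
    omega
  have hTe : cT G S M = 12 := le_antisymm h12 hge
  -- the vertices with two in-neighbours
  obtain ⟨X, hX⟩ : ∃ X, X = S.filter fun u => inc G M u = 2 := ⟨_, rfl⟩
  have hXS : X ⊆ S := by
    rw [hX]
    exact Finset.filter_subset _ _
  have hX5 : 5 ≤ X.card := by
    have h1 : ∑ v ∈ S, inc G M v ≤ ∑ v ∈ S, (1 + if inc G M v = 2 then 1 else 0) := by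
      refine Finset.sum_le_sum fun u hu => ?_
      have := hlin u hu
      split_ifs with h
      · omega
      · omega
    rw [hT, hTe, Finset.sum_add_distrib, Finset.sum_const, c.hS, smul_eq_mul,
      ← Finset.card_filter, ← hX] at h1
    omega
  obtain ⟨Y, hY⟩ : ∃ Y, Y = M.filter fun y => (N G y ∩ S).card = 1 := ⟨_, rfl⟩
  have hXY : ∀ u ∈ X, inc G Y u = 2 := by
    intro u hu
    rw [hX, Finset.mem_filter] at hu
    obtain ⟨huS, hu2⟩ := hu
    have h1 := hlin u huS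
    have h2 : cb G S M u ≤ 2 := by omega
    have h3 : ∀ y ∈ M.filter (fun y => G.Adj y u), 1 ≤ (N G y ∩ S).card := by
      intro y hy
      rw [Finset.mem_filter] at hy
      exact Finset.card_pos.2 ⟨u, Finset.mem_inter.2 ⟨(mem_N G).2 hy.2, huS⟩⟩
    have h4 : ∑ y ∈ M.filter (fun y => G.Adj y u), 1 = inc G M u := by
      rw [Finset.sum_const, smul_eq_mul, mul_one]
      rfl
    have h5 : ∑ y ∈ M.filter (fun y => G.Adj y u), 1 =
        ∑ y ∈ M.filter (fun y => G.Adj y u), (N G y ∩ S).card := by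
      refine le_antisymm (Finset.sum_le_sum h3) ?_
      rw [h4, hu2]
      exact h2
    have h6 := (Finset.sum_eq_sum_iff_of_le h3).1 h5
    have h7 : Y.filter (fun y => G.Adj y u) = M.filter (fun y => G.Adj y u) := by
      ext y
      rw [hY, Finset.mem_filter, Finset.mem_filter, Finset.mem_filter]
      constructor
      · rintro ⟨⟨a1, _⟩, a2⟩
        exact ⟨a1, a2⟩
      · rintro ⟨a1, a2⟩
        exact ⟨⟨a1, (h6 y (Finset.mem_filter.2 ⟨a1, a2⟩)).symm⟩, a2⟩
    unfold inc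
    rw [h7]
    exact hu2
  have h8 : 2 * X.card = ∑ y ∈ Y, (N G y ∩ X).card := by
    rw [dc G Y X, Finset.sum_congr rfl hXY, Finset.sum_const, smul_eq_mul, mul_comm]
  have h9 : ∑ y ∈ Y, (N G y ∩ X).card ≤ ∑ y ∈ Y, 1 := by
    refine Finset.sum_le_sum fun y hy => ?_
    rw [hY, Finset.mem_filter] at hy
    rw [← hy.2]
    exact Finset.card_le_card (Finset.inter_subset_inter_left hXS)
  have h11 : Y.card ≤ 6 := by
    rw [← hM, hY]
    exact Finset.card_filter_le _ _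
  rw [Finset.sum_const, smul_eq_mul, mul_one] at h9
  omega

end Pool.Agent.H39.S7
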