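import Pool.Agent.H39.S7.G.H3b
import Pool.Agent.H39.S7.G.H3c

/-! Row G9d (about 60 lines). Assembly of the case that all vertices of `S` have out-degree at least three inside `S`.
Notation `A, C, D, t`, `T`, `K = |W|` of the files above; `B y = |N y ∩ S|` for `y ∈ M`;
`β u = ∑_{y ∈ M, y → u} B y`.
Facts (1)-(3): `Cfg7.reg_facts`. (6) for `T ∈ {6,7}`: `Cfg7.reg67`; (7): `Cfg7.reg_big`; the remaining steps:
(4) `|M| = 5` (`T ≤ 7`): `D u = 4` is impossible (`10 ≤ T`), so `D u = 5`, `t u = 0` for all `u`, `T = 0`. Contradiction.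
(5) `|M| = 6`, `T ≤ 4`: `D u = 6` for all `u` (else `5 ≤ T`), `t u = 0`, `T = 0`. Contradiction.
(6) `|M| = 6`, `5 ≤ T ≤ 9`: `D u = 4` impossible, so `t u ≤ 1`, so `T ≤ 7`. If `t u = 1` then `D u = 5`, `β u ≤ T - 5`. `T = 5`: `t u = 1`
  gives `β u ≤ 0`, contradiction with `β u ≥ t u`; so `T = 0`.
  `T ∈ {6, 7}`: for `u` with `t u = 1` let `y_u ∈ M` be the vertex with `y_u → u`; as `D u = 5`, `M \ N u = {y_u}`; `B y_u ≤ T - 5 ≤ 2`.
  Let `u ∈ S` with `t u = 1`. The set `{v ∈ S : ¬ v → y_u}` has at most `2` elements: such `v` with `t v = 1` has `y_v = y_u`, so it is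
  counted by `B y_u ≤ T - 5`, and there are at most `7 - T` vertices with `t v = 0`. So some `v ∈ N u ∩ S` (three elements)
  has `v → y_u`, so `cz u = 0`. By `Cfg7.bad3`: `3 + 6 + K + 1 ≤ 3 + 10 + 0 + |W \ N2 u|`, that is `|W \ N2 u| ≥ K - 3`.
  As `B y_u ≤ 2` and `T ≥ 6`, there is `u'` with `t u' = 1` and `y_{u'} ≠ y_u`. The sets `Q = W \ N2 u`, `Q' = W \ N2 u'` are disjoint
  (a `w ∈ W` in both has no in-neighbour in `M`: it is not in `N u ∩ M = M \ {y_u}` and not in `M \ {y_{u'}}`; against `hWin`).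
  Missing arcs: for `w ∈ Q` all five `y ≠ y_u`, for `w ∈ Q'` all five `y ≠ y_{u'}`. So
  `7·6 ≤ ∑_{y∈M}|N y| ≤ T + 15 + 6K - 5(|Q| + |Q'|)`, i.e. `10 (K - 3) ≤ 6K + T - 27`, `4K ≤ 3 + T ≤ 10`, `K ≤ 2`; but
  `6 K ≥ 27 - T ≥ 20` (`Cfg7.K_ge`) gives `K ≥ 4`. Contradiction.
(7) `|M| = 6`, `T ≥ 8` (so `T ≥ 10` by (6)): `t u ≤ 2`, and `t u = 2` forces `D u = 4`, `β u ≤ T - 10`; some `u` has `t u = 2` as `T > 7`;
  `β u ≥ t u = 2`, so `T ≥ 12`. At least `T - 7` vertices have `t u = 2`. `T ≤ 14` (`Cfg7.T_le`).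
  `T = 12`: at least five `u` have `t u = 2`, `β u ≤ 2`, so `B y = 1` for both `y → u`. These `y` are distinct for distinct `u` (as `B y = 1`):
  `10` distinct elements in `M`, `|M| = 6`. (`10 ≤ ∑_{u ∈ X} inc Y1 u = ∑_{y∈Y1} |N y ∩ X| ≤ |Y1| ≤ 6`, `Y1 = {y ∈ M : B y = 1}`.)
  `T ≥ 13`: `∑_{u∈S} β u = ∑_{y∈M} (B y)^2 ≥ 5 T - 36` (since `(B-2)(B-3) ≥ 0`, `∑ B = T`, `|M| = 6`). `T = 13`: six vertices have `t = 2`,
  `β ≤ 3`, one has `t = 1`, `D ≤ 5`, `β ≤ 8` (need ≥ 5): `∑ β ≤ 26 < 29`. `T = 14`: `∑ β ≤ 7 * 4 = 28 < 34`. -/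

set_option autoImplicit false

namespace Pool.Agent.H39.S7

open Classical Pool.Agent.H39.Burckel

variable {V : Type} [Fintype V] {G : Digraph V} {S M W : Finset V}

theorem Cfg7.not_reg (c : Cfg7 G S M W) (hT : 1 ≤ cT G S M) (hM : 5 ≤ M.card)
    (hmin : ∀ u ∈ S, 3 ≤ cA G S u) : False := by
  have hf := c.reg_facts hmin
  have hTe : ∑ v ∈ S, inc G M v = cT G S M := rfl
  have hM6 := c.hM
  have n4 : need 3 3 4 = 10 := by decide
  have n5 : need 3 3 5 = 5 := by decide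
  have n6 : need 3 3 6 = 0 := by decide
  -- not all `t` vanish
  have hne : ¬ ∀ u ∈ S, inc G M u = 0 := by
    intro h
    have h1 : ∑ v ∈ S, inc G M v = 0 := Finset.sum_eq_zero h
    omega
  -- if all `t` are at most one then `T ≤ 7`
  have hle : (∀ u ∈ S, inc G M u ≤ 1) → cT G S M ≤ 7 := by
    intro h
    have h1 : ∑ v ∈ S, inc G M v ≤ ∑ v ∈ S, 1 := Finset.sum_le_sum h
    rw [hTe, Finset.sum_const, c.hS, smul_eq_mul] at h1
    omega
  obtain h5 | h6 : M.card = 5 ∨ M.card = 6 := by omega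
  · have h7 : cT G S M ≤ 7 := by
      refine hle fun u hu => ?_
      obtain ⟨-, -, h1, h2, -, -⟩ := hf u hu
      omega
    refine hne fun u hu => ?_
    obtain ⟨-, -, h1, h2, h3, h4⟩ := hf u hu
    obtain h | h : cD G M u = 4 ∨ cD G M u = 5 := by omega
    · rw [h, n4] at h4
      omega
    · omega
  · by_cases h10 : 10 ≤ cT G S M
    · exact c.reg_big hmin h6 h10
    · have hD : ∀ u ∈ S, 5 ≤ cD G M u := by
        intro u hu
        obtain ⟨-, -, h1, h2, h3, h4⟩ := hf u hu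
        by_contra hcon
        have h : cD G M u = 4 := by omega
        rw [h, n4] at h4
        omega
      have h7 : cT G S M ≤ 7 := by
        refine hle fun u hu => ?_
        obtain ⟨-, -, h1, h2, -, -⟩ := hf u hu
        have := hD u hu
        omega
      by_cases h66 : 6 ≤ cT G S M
      · exact c.reg67 hmin h6 h66 h7 hD
      · refine hne fun u hu => ?_
        obtain ⟨-, -, h1, h2, h3, h4⟩ := hf u hu
        have h8 := hD u hu
        obtain h | h : cD G M u = 5 ∨ cD G M u = 6 := by omega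
        · rw [h, n5] at h4
          omega
        · omega

end Pool.Agent.H39.S7
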