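import Pool.Agent.H39.S7.G.Base

/-! Row G2 (about 130 lines). The bounds coming from the vertices of `M` and `W`. For `u ∈ S`:
`N u ⊆ S ∪ M`, `|N u| = A u + D u`, `|N2 u| ≤ A u + D u - 1`.
* `full`: if `D u = |M|` then `u → y` for all `y ∈ M`, so `W ⊆ N2 u` (each `w ∈ W` has an in-neighbour in `M`, `w ∉ N u`,
  `w ≠ u`), and `N2 u ⊇ (N2 u ∩ S) ∪ W` disjointly.
* `z1`: the `cz` set is in `M \ N u`. `z2`: if `u → v` then `N v ⊆ N u ∪ N2 u` (`N_subset`), so the `cz` set is in `M \ N v`.
* `sumW`: `7 |M| ≤ ∑_{y∈M} |N y|`, `N y ⊆ S ∪ M ∪ W`, `dc`, `sum_inside`. (Prove this one first and sync it: row G9b uses it.)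
* `missing`: let `Q = W \ N2 u`. No arc goes from `N u ∩ M` to `Q`. Counting `∑_{y∈M} |N y| ≥ 7|M|` with
  `|N y ∩ W| ≤ |W|` for all `y`, and `≤ |W| - |Q|` for `y ∈ N u ∩ M`.
* `F3`: `N2 u ⊇ (N2 u ∩ S) ∪ (N2 u ∩ M) ∪ (N2 u ∩ W)`, `|N2 u ∩ M| = |M| - D u - cz u`, `|N2 u ∩ W| = |W| - |Q|`,
  and `|Q| ≤ |W|`, `|Q| * D u ≤ missing` so `|Q| ≤ missing / D u` (`Nat.le_div_iff_mul_le`, `D u ≥ 1`). -/

set_option autoImplicit false

namespace Pool.Agent.H39.S7

open Classical Pool.Agent.H39.Burckel

variable {V : Type} [Fintype V] {G : Digraph V} {S M W : Finset V}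

theorem Cfg7.split_L2 (c : Cfg7 G S M W) {u : V} (hu : u ∈ S) :
    (N G u).card = cA G S u + cD G M u := by
  unfold cA cD
  rw [← Finset.card_union_of_disjoint (c.hdSM.mono Finset.inter_subset_right
    Finset.inter_subset_right), ← Finset.inter_union_distrib_left]
  congr 1
  rw [Finset.inter_eq_left.2]
  exact c.hSM u hu

theorem Cfg7.notN_L2 (c : Cfg7 G S M W) {u w : V} (hu : u ∈ S) (hw : w ∈ W) : ¬ G.Adj u w := by
  intro h
  have h1 := c.hSM u hu ((mem_N G).2 h)
  rw [Finset.mem_union] at h1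
  rcases h1 with h1 | h1
  · exact Finset.disjoint_left.1 c.hdSW h1 hw
  · exact Finset.disjoint_left.1 c.hdMW h1 hw

theorem Cfg7.full (c : Cfg7 G S M W) {u : V} (hu : u ∈ S) (h : cD G M u = M.card) :
    cC G S u + W.card + 1 ≤ cA G S u + M.card := by
  have hfull : N G u ∩ M = M :=
    Finset.eq_of_subset_of_card_le Finset.inter_subset_right (by unfold cD at h; omega)
  have hW : W ⊆ N2 G u := by
    intro w hw
    obtain ⟨y, hy, hyw⟩ := c.hWin w hw
    rw [← hfull, Finset.mem_inter, mem_N] at hy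
    exact mem_N2_of G c.hG hy.1 hyw (c.notN_L2 hu hw)
  have hsub : (N2 G u ∩ S) ∪ W ⊆ N2 G u := Finset.union_subset Finset.inter_subset_left hW
  have h1 := Finset.card_le_card hsub
  rw [Finset.card_union_of_disjoint (c.hdSW.mono_left Finset.inter_subset_right)] at h1
  have h2 := c.hbad u
  have h3 := c.split_L2 hu
  unfold cC
  omega

theorem Cfg7.z1 (c : Cfg7 G S M W) {u : V} (hu : u ∈ S) : cz G M u + cD G M u ≤ M.card := by
  unfold cz cD
  rw [← Finset.card_union_of_disjoint]
  · apply Finset.card_le_card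
    intro w hw
    rw [Finset.mem_union, Finset.mem_sdiff, Finset.mem_inter] at hw
    tauto
  · rw [Finset.disjoint_left]
    intro w hw hw'
    rw [Finset.mem_sdiff, Finset.mem_union] at hw
    rw [Finset.mem_inter] at hw'
    exact hw.2 (Or.inl hw'.1)

theorem Cfg7.z2 (c : Cfg7 G S M W) {u v : V} (hu : u ∈ S) (hv : v ∈ S) (h : G.Adj u v) :
    cz G M u + cD G M v ≤ M.card := by
  unfold cz cD
  rw [← Finset.card_union_of_disjoint]
  · apply Finset.card_le_card
    intro w hw
    rw [Finset.mem_union, Finset.mem_sdiff, Finset.mem_inter] at hw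
    tauto
  · rw [Finset.disjoint_left]
    intro w hw hw'
    rw [Finset.mem_sdiff] at hw
    rw [Finset.mem_inter] at hw'
    exact hw.2 (N_subset G c.hG h hw'.1)

theorem Cfg7.sumW_aux_L2 (c : Cfg7 G S M W) :
    7 * M.card ≤ cT G S M + M.card * (M.card - 1) / 2 + ∑ y ∈ M, (N G y ∩ W).card := by
  have h1 : ∀ y ∈ M, 7 ≤ (N G y ∩ S).card + (N G y ∩ M).card + (N G y ∩ W).card := by
    intro y hy
    have h2 := c.hdeg y
    have hsub : N G y ⊆ (N G y ∩ S) ∪ (N G y ∩ M) ∪ (N G y ∩ W) := by
      intro w hw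
      have := c.hMW y hy hw
      simp only [Finset.mem_union, Finset.mem_inter] at this ⊢
      tauto
    have h3 := Finset.card_le_card hsub
    have h4 := Finset.card_union_le ((N G y ∩ S) ∪ (N G y ∩ M)) (N G y ∩ W)
    have h5 := Finset.card_union_le (N G y ∩ S) (N G y ∩ M)
    omega
  have h2 := Finset.sum_le_sum h1
  rw [Finset.sum_const, smul_eq_mul, Finset.sum_add_distrib, Finset.sum_add_distrib, dc G M S] at h2
  have h3 := sum_inside G c.hG M
  have h4 : M.card * (M.card - 1) = M.card * M.card - M.card := by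
    rw [Nat.mul_sub, Nat.mul_one]
  rw [h4]
  unfold cT
  omega

/-- counting the arcs out of `M`, those to `W` by their heads -/
theorem Cfg7.sumW (c : Cfg7 G S M W) :
    7 * M.card ≤ cT G S M + M.card * (M.card - 1) / 2 + ∑ w ∈ W, inc G M w := by
  have := c.sumW_aux_L2
  rwa [dc G M W] at this

/-- the second vertex set: pairs `(y, w)`, `y ∈ N u ∩ M`, `w ∈ W \ N2 u` are missing arcs -/
theorem Cfg7.missing (c : Cfg7 G S M W) (X : Finset V) (hX : X ⊆ M) (Q : Finset V) (hQ : Q ⊆ W)
    (h : ∀ y ∈ X, ∀ w ∈ Q, ¬ G.Adj y w) :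
    Q.card * X.card + 7 * M.card ≤ M.card * W.card + cT G S M + M.card * (M.card - 1) / 2 := by
  have h1 := c.sumW_aux_L2
  have h2 : ∀ y ∈ M, (N G y ∩ W).card + (if y ∈ X then Q.card else 0) ≤ W.card := by
    intro y _
    split_ifs with hy
    · rw [← Finset.card_union_of_disjoint]
      · exact Finset.card_le_card (Finset.union_subset Finset.inter_subset_right hQ)
      · rw [Finset.disjoint_left]
        intro w hw hw'
        rw [Finset.mem_inter, mem_N] at hw
        exact h y hy w hw' hw.1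
    · exact Finset.card_le_card Finset.inter_subset_right
  have h3 := Finset.sum_le_sum h2
  rw [Finset.sum_const, smul_eq_mul, Finset.sum_add_distrib, ← Finset.sum_filter,
    Finset.filter_mem_eq_inter, Finset.inter_eq_right.2 hX, Finset.sum_const, smul_eq_mul,
    Nat.mul_comm X.card Q.card] at h3
  omega

/-- the bad inequality at `u` with the exact number of vertices of `W` not reached -/
theorem Cfg7.bad3 (c : Cfg7 G S M W) {u : V} (hu : u ∈ S) :
    cC G S u + M.card + W.card + 1 ≤ cA G S u + 2 * cD G M u + cz G M u + (W \ N2 G u).card := by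
  have h1 := c.split_L2 hu
  have h2 := c.hbad u
  have h3 : (N2 G u ∩ S).card + (N2 G u ∩ M).card + (N2 G u ∩ W).card ≤ (N2 G u).card := by
    rw [← Finset.card_union_of_disjoint (c.hdSM.mono Finset.inter_subset_right
      Finset.inter_subset_right), ← Finset.card_union_of_disjoint]
    · apply Finset.card_le_card
      intro w hw
      simp only [Finset.mem_union, Finset.mem_inter] at hw
      tauto
    · rw [Finset.disjoint_left]
      intro w hw hw'
      simp only [Finset.mem_union, Finset.mem_inter] at hw hw'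
      rcases hw with hw | hw
      · exact Finset.disjoint_left.1 c.hdSW hw.2 hw'.2
      · exact Finset.disjoint_left.1 c.hdMW hw.2 hw'.2
  have h4 : M.card ≤ (N G u ∩ M).card + (N2 G u ∩ M).card + (M \ (N G u ∪ N2 G u)).card := by
    have hsub : M ⊆ (N G u ∩ M) ∪ (N2 G u ∩ M) ∪ (M \ (N G u ∪ N2 G u)) := by
      intro w hw
      simp only [Finset.mem_union, Finset.mem_inter, Finset.mem_sdiff]
      tauto
    have h5 := Finset.card_le_card hsub
    have h6 := Finset.card_union_le ((N G u ∩ M) ∪ (N2 G u ∩ M)) (M \ (N G u ∪ N2 G u))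
    have h7 := Finset.card_union_le (N G u ∩ M) (N2 G u ∩ M)
    omega
  have h5 : W.card ≤ (N2 G u ∩ W).card + (W \ N2 G u).card := by
    have := Finset.card_inter_add_card_sdiff W (N2 G u)
    rw [Finset.inter_comm] at this
    omega
  unfold cC cz
  unfold cD at h1 ⊢
  omega

theorem Cfg7.F3 (c : Cfg7 G S M W) {u : V} (hu : u ∈ S) (hD : 1 ≤ cD G M u) :
    cC G S u + M.card + W.card + 1 ≤ cA G S u + 2 * cD G M u + cz G M u +
      min W.card ((M.card * W.card + cT G S M + M.card * (M.card - 1) / 2 - 7 * M.card) / cD G M u) := by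
  have h1 := c.bad3 hu
  have h2 : (W \ N2 G u).card ≤ W.card := Finset.card_le_card Finset.sdiff_subset
  have h3 := c.missing (N G u ∩ M) Finset.inter_subset_right (W \ N2 G u) Finset.sdiff_subset (by
    intro y hy w hw hyw
    rw [Finset.mem_inter, mem_N] at hy
    rw [Finset.mem_sdiff] at hw
    exact hw.2 (mem_N2_of G c.hG hy.1 hyw (c.notN_L2 hu hw.1)))
  have h4 : (W \ N2 G u).card ≤
      (M.card * W.card + cT G S M + M.card * (M.card - 1) / 2 - 7 * M.card) / cD G M u := by
    rw [Nat.le_div_iff_mul_le hD]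
    change (W \ N2 G u).card * (N G u ∩ M).card ≤ _
    omega
  have h5 := le_min h2 h4
  omega

end Pool.Agent.H39.S7
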