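import Pool.Agent.H39.S7.G.Base

/-! Row G3 (about 120 lines). The degree sum over `N u ∩ M`, `u ∈ S`.
Each `y ∈ N u ∩ M` has at least seven out-neighbours, all in `N u ∪ N2 u` (`N_subset`), hence in `S`, in `N u ∩ M`,
or in `N2 u \ S` (as in `Cfg.sumD` of `Pool/Agent/H39/BurckelSix.lean`). So
`7 D ≤ E + D (D - 1) / 2 + D * |N2 u \ S|`, `|N2 u \ S| ≤ A + D - 1 - C`, where `E` is the number of arcs from `N u ∩ M` to `S`
(`sum_inside` for the arcs inside `N u ∩ M`). That is `need A C D ≤ E` (`need` is in `Fam.lean`; truncated subtraction).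
* `need_le`: this inequality.
* `need_X`: `E = ∑_{v∈S} inc (N u ∩ M) v` (`dc`), `inc (N u ∩ M) v ≤ inc M v`, and it is `0` for `v = u` (oriented) and
  for `v ∈ X` (else `v` would be in `N2 u`). So `E + t u + ∑_{v∈X} t v ≤ T`.
* `need_b`: `E + ∑_{y∈M, y→u} |N y ∩ S| ≤ ∑_{y∈M} |N y ∩ S| = T`, as `N u ∩ M` and `{y ∈ M : y → u}` are disjoint. -/

set_option autoImplicit false

namespace Pool.Agent.H39.S7

open Classical Pool.Agent.H39.Burckel

variable {V : Type} [Fintype V] {G : Digraph V} {S M W : Finset V}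

private theorem L3_deg (c : Cfg7 G S M W) {u : V} (hu : u ∈ S) :
    cD G M u * 7 ≤ ∑ y ∈ N G u ∩ M, (N G y ∩ S).card +
      ∑ y ∈ N G u ∩ M, (N G y ∩ (N G u ∩ M)).card + cD G M u * (N2 G u \ S).card := by
  unfold cD
  rw [← smul_eq_mul (N G u ∩ M).card, ← smul_eq_mul (N G u ∩ M).card,
    ← Finset.sum_const, ← Finset.sum_const, ← Finset.sum_add_distrib, ← Finset.sum_add_distrib]
  apply Finset.sum_le_sum
  intro y hy
  rw [Finset.mem_inter, mem_N] at hy
  refine (c.hdeg y).trans ?_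
  have hsub : N G y ⊆ (N G y ∩ S) ∪ (N G y ∩ (N G u ∩ M)) ∪ (N2 G u \ S) := by
    intro w hw
    have h1 := N_subset G c.hG hy.1 hw
    rw [Finset.mem_union] at h1
    simp only [Finset.mem_union, Finset.mem_inter, Finset.mem_sdiff]
    by_cases hwN : w ∈ S
    · exact Or.inl (Or.inl ⟨hw, hwN⟩)
    · rcases h1 with h1 | h1
      · have h2 := c.hSM u hu h1
        rw [Finset.mem_union] at h2
        rcases h2 with h2 | h2
        · exact absurd h2 hwN
        · exact Or.inl (Or.inr ⟨hw, h1, h2⟩)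
      · exact Or.inr ⟨h1, hwN⟩
  refine (Finset.card_le_card hsub).trans ((Finset.card_union_le _ _).trans ?_)
  have := Finset.card_union_le (N G y ∩ S) (N G y ∩ (N G u ∩ M))
  omega

private theorem L3_bad (c : Cfg7 G S M W) {u : V} (hu : u ∈ S) :
    cC G S u + (N2 G u \ S).card + 1 ≤ cA G S u + cD G M u := by
  have h1 : (N G u).card = cA G S u + cD G M u := by
    unfold cA cD
    rw [← Finset.card_union_of_disjoint (c.hdSM.mono Finset.inter_subset_right
      Finset.inter_subset_right), ← Finset.inter_union_distrib_left]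
    congr 1
    rw [Finset.inter_eq_left.2]
    exact c.hSM u hu
  have h2 := c.hbad u
  have h3 := Finset.card_inter_add_card_sdiff (N2 G u) S
  unfold cC
  omega

theorem Cfg7.need_le (c : Cfg7 G S M W) {u : V} (hu : u ∈ S) :
    need (cA G S u) (cC G S u) (cD G M u) ≤ ∑ y ∈ N G u ∩ M, (N G y ∩ S).card := by
  have h1 := L3_deg c hu
  have h2 := L3_bad c hu
  have h3 := sum_inside G c.hG (N G u ∩ M)
  have hD : (N G u ∩ M).card = cD G M u := rfl
  rw [hD] at h3
  generalize cD G M u = D at *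
  generalize cC G S u = C at *
  generalize cA G S u = A at *
  generalize (N2 G u \ S).card = B at *
  generalize ∑ y ∈ N G u ∩ M, (N G y ∩ S).card = E at *
  generalize ∑ y ∈ N G u ∩ M, (N G y ∩ (N G u ∩ M)).card = I at *
  unfold need
  rw [Nat.sub_le_iff_le_add]
  have h4 : I ≤ D * (D - 1) / 2 := by
    rw [Nat.le_div_iff_mul_le two_pos, Nat.mul_sub, mul_one]
    omega
  have h5 : D * (C + B + 1) ≤ D * (A + D) := Nat.mul_le_mul_left _ h2
  have h6 : D * (8 + C) = D * 7 + (D * (C + 1)) := by ring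
  have h7 : D * (C + B + 1) = D * B + D * (C + 1) := by ring
  omega

theorem Cfg7.need_X (c : Cfg7 G S M W) {u : V} (hu : u ∈ S) (X : Finset V) (hX : X ⊆ S) (huX : u ∉ X)
    (h : ∀ v ∈ X, ¬ G.Adj u v ∧ v ∉ N2 G u) :
    need (cA G S u) (cC G S u) (cD G M u) + inc G M u + ∑ v ∈ X, inc G M v ≤ cT G S M := by
  have h1 := c.need_le hu
  rw [dc G (N G u ∩ M) S] at h1
  have hsub : insert u X ⊆ S := Finset.insert_subset hu hX
  have h2 := Finset.sum_sdiff hsub (f := fun v => inc G (N G u ∩ M) v)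
  have h3 := Finset.sum_sdiff hsub (f := fun v => inc G M v)
  have h4 : ∑ v ∈ insert u X, inc G (N G u ∩ M) v = 0 := by
    apply Finset.sum_eq_zero
    intro v hv
    rw [inc, Finset.card_eq_zero, Finset.eq_empty_iff_forall_notMem]
    intro y hy
    rw [Finset.mem_filter, Finset.mem_inter, mem_N] at hy
    rcases Finset.mem_insert.1 hv with rfl | hv
    · exact c.hG _ _ hy.1.1 hy.2
    · exact (h v hv).2 (mem_N2_of G c.hG hy.1.1 hy.2 (h v hv).1)
  have h5 : ∑ v ∈ S \ insert u X, inc G (N G u ∩ M) v ≤ ∑ v ∈ S \ insert u X, inc G M v :=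
    Finset.sum_le_sum fun v _ => inc_mono G Finset.inter_subset_right v
  have h6 : ∑ v ∈ insert u X, inc G M v = inc G M u + ∑ v ∈ X, inc G M v :=
    Finset.sum_insert huX
  unfold cT
  beta_reduce at h2 h3
  omega

theorem Cfg7.need_b (c : Cfg7 G S M W) {u : V} (hu : u ∈ S) :
    need (cA G S u) (cC G S u) (cD G M u) + ∑ y ∈ M.filter (fun y => G.Adj y u), (N G y ∩ S).card ≤ cT G S M := by
  have h1 := c.need_le hu
  have hd : Disjoint (N G u ∩ M) (M.filter (fun y => G.Adj y u)) := by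
    rw [Finset.disjoint_left]
    intro y hy hy'
    rw [Finset.mem_inter, mem_N] at hy
    rw [Finset.mem_filter] at hy'
    exact c.hG _ _ hy.1 hy'.2
  have h2 : ∑ y ∈ N G u ∩ M, (N G y ∩ S).card +
      ∑ y ∈ M.filter (fun y => G.Adj y u), (N G y ∩ S).card ≤ ∑ y ∈ M, (N G y ∩ S).card := by
    rw [← Finset.sum_union hd]
    exact Finset.sum_le_sum_of_subset
      (Finset.union_subset Finset.inter_subset_right (Finset.filter_subset _ _))
  rw [dc G M S] at h2
  unfold cT
  omega

end Pool.Agent.H39.S7
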