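import Pool.Agent.H39.S7.G.L1
import Pool.Agent.H39.S7.G.L2
import Pool.Agent.H39.S7.G.L3

/-! Row G9a (about 130 lines). All vertices of `S` have out-degree at least three inside `S`: the basic facts.
Notation `A, C, D, t`, `T`, `K = |W|` of the files above; `B y = |N y ∩ S|` for `y ∈ M`;
`β u = ∑_{y ∈ M, y → u} B y`.
(1) `∑_{u∈S} A u ≤ 21` (`Cfg7.sumA`), so `A u = 3` for all `u ∈ S`, and `G[S]` is a tournament: `3 = A u` out-neighbours and
  at most `6 - 3` in-neighbours in `S`; summing, the in-degrees are also `21` in total (`dc`), so each is `3`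
  (`inc G S u + A u ≤ 6` for each `u`, sum `= 42`).
(2) `C u = 3`: let `w ∈ S` with `w ≠ u`, `¬ u → w`. Then `w → u`. If `w ∉ N2 u` then no `v ∈ N u ∩ S` has `v → w`, so `w → v` for
  these three, `A w ≥ 4`, contradiction. So `N2 u ∩ S = S \ (N u ∪ {u})` has three elements.
(3) `D u ≥ 4` and `D u ≤ 6 - t u`, `need 3 3 6 = 0`, `need 3 3 5 = 5`, `need 3 3 4 = 10`, and `need + β u ≤ T` (`Cfg7.need_b`), `β u ≥ t u`.
-/

set_option autoImplicit false

namespace Pool.Agent.H39.S7

open Classical Pool.Agent.H39.Burckel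

variable {V : Type} [Fintype V] {G : Digraph V} {S M W : Finset V}

/-- `β u` -/
noncomputable def cb (G : Digraph V) (S M : Finset V) (u : V) : ℕ :=
  ∑ y ∈ M.filter (fun y => G.Adj y u), (N G y ∩ S).card

omit [Fintype V] in
private theorem H3a_ir (hG : Oriented G) (u : V) : ¬ G.Adj u u := fun h => hG u u h h

private theorem H3a_deg (hG : Oriented G) {u : V} (hu : u ∈ S) (hS : S.card = 7) :
    inc G S u + cA G S u ≤ 6 ∧ (inc G S u + cA G S u = 6 → ∀ w ∈ S, w ≠ u → ¬ G.Adj u w → G.Adj w u) := by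
  have hd : Disjoint (S.filter fun y => G.Adj y u) (N G u ∩ S) := by
    rw [Finset.disjoint_left]
    intro y h1 h2
    rw [Finset.mem_filter] at h1
    rw [Finset.mem_inter, mem_N] at h2
    exact hG _ _ h1.2 h2.1
  have hsub : (S.filter fun y => G.Adj y u) ∪ (N G u ∩ S) ⊆ S.erase u := by
    intro y hy
    rw [Finset.mem_erase]
    rcases Finset.mem_union.1 hy with h | h
    · rw [Finset.mem_filter] at h
      refine ⟨?_, h.1⟩
      rintro rfl
      exact H3a_ir hG _ h.2
    · rw [Finset.mem_inter, mem_N] at h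
      refine ⟨?_, h.2⟩
      rintro rfl
      exact H3a_ir hG _ h.1
  have hce : (S.erase u).card = 6 := by rw [Finset.card_erase_of_mem hu, hS]
  have hcu : ((S.filter fun y => G.Adj y u) ∪ (N G u ∩ S)).card = inc G S u + cA G S u := by
    rw [Finset.card_union_of_disjoint hd]
    rfl
  refine ⟨by rw [← hcu, ← hce]; exact Finset.card_le_card hsub, fun h w hw hwu hnw => ?_⟩
  have heq := Finset.eq_of_subset_of_card_le hsub (by rw [hcu, hce, h])
  have hmem : w ∈ S.erase u := Finset.mem_erase.2 ⟨hwu, hw⟩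
  rw [← heq] at hmem
  rcases Finset.mem_union.1 hmem with h1 | h1
  · exact (Finset.mem_filter.1 h1).2
  · rw [Finset.mem_inter, mem_N] at h1
    exact absurd h1.1 hnw

theorem Cfg7.reg_facts (c : Cfg7 G S M W) (hmin : ∀ u ∈ S, 3 ≤ cA G S u) :
    ∀ u ∈ S, cA G S u = 3 ∧ cC G S u = 3 ∧ 4 ≤ cD G M u ∧ cD G M u + inc G M u ≤ M.card ∧
      inc G M u ≤ cb G S M u ∧ need 3 3 (cD G M u) + cb G S M u ≤ cT G S M := by
  have h21 := c.sumA
  have hS := c.hS
  have hconst : ∑ u ∈ S, 3 = 21 := by rw [Finset.sum_const, hS]; rfl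
  have hA : ∀ u ∈ S, cA G S u = 3 := by
    have h1 : ∑ u ∈ S, 3 = ∑ u ∈ S, cA G S u :=
      le_antisymm (Finset.sum_le_sum hmin) (by rw [hconst]; exact h21)
    intro u hu
    exact ((Finset.sum_eq_sum_iff_of_le hmin).1 h1 u hu).symm
  have hAs : ∑ u ∈ S, cA G S u = 21 := by rw [Finset.sum_congr rfl hA, hconst]
  have hI : ∑ u ∈ S, inc G S u = 21 := by
    rw [← dc, ← hAs]
    rfl
  have h42 : ∑ u ∈ S, (inc G S u + cA G S u) = ∑ u ∈ S, 6 := by
    rw [Finset.sum_add_distrib, hI, hAs, Finset.sum_const, hS]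
    rfl
  have hI6 : ∀ u ∈ S, inc G S u + cA G S u = 6 :=
    (Finset.sum_eq_sum_iff_of_le fun u hu => (H3a_deg c.hG hu hS).1).1 h42
  have htour : ∀ u ∈ S, ∀ w ∈ S, w ≠ u → ¬ G.Adj u w → G.Adj w u := fun u hu =>
    (H3a_deg c.hG hu hS).2 (hI6 u hu)
  intro u hu
  have hC : cC G S u = 3 := by
    have h1 : N2 G u ∩ S = (S.erase u) \ (N G u ∩ S) := by
      ext w
      rw [Finset.mem_inter, Finset.mem_sdiff, Finset.mem_erase, Finset.mem_inter, mem_N]
      constructor
      · rintro ⟨h2, h3⟩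
        have h4 := (mem_N2 G).1 h2
        refine ⟨⟨?_, h3⟩, fun h5 => ?_⟩
        · rintro rfl
          simp at h4
        · have h6 := Finset.disjoint_left.1 (N_disj G u) ((mem_N G).2 h5.1)
          exact h6 h2
      · rintro ⟨⟨h2, h3⟩, h4⟩
        refine ⟨?_, h3⟩
        have hnu : ¬ G.Adj u w := fun h5 => h4 ⟨h5, h3⟩
        by_contra hn2
        have hwu : G.Adj w u := htour u hu w h3 h2 hnu
        have hsub : insert u (N G u ∩ S) ⊆ N G w ∩ S := by
          intro v hv
          rw [Finset.mem_inter, mem_N]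
          rcases Finset.mem_insert.1 hv with rfl | hv
          · exact ⟨hwu, hu⟩
          · rw [Finset.mem_inter, mem_N] at hv
            refine ⟨?_, hv.2⟩
            have hne : w ≠ v := by
              rintro rfl
              exact hnu hv.1
            refine htour v hv.2 w h3 hne fun hvw => hn2 ?_
            exact mem_N2_of G c.hG hv.1 hvw hnu
        have hcard := Finset.card_le_card hsub
        rw [Finset.card_insert_of_notMem] at hcard
        · have e1 : (N G u ∩ S).card = 3 := hA u hu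
          have e2 : (N G w ∩ S).card = 3 := hA w h3
          omega
        · intro h5
          rw [Finset.mem_inter, mem_N] at h5
          exact H3a_ir c.hG _ h5.1
    have h2 : N G u ∩ S ⊆ S.erase u := by
      intro w hw
      rw [Finset.mem_inter, mem_N] at hw
      rw [Finset.mem_erase]
      refine ⟨?_, hw.2⟩
      rintro rfl
      exact H3a_ir c.hG _ hw.1
    have e1 : (N G u ∩ S).card = 3 := hA u hu
    show (N2 G u ∩ S).card = 3
    rw [h1, Finset.card_sdiff_of_subset h2, Finset.card_erase_of_mem hu, hS, e1]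
  have hdeg := c.deg hu
  have hnb := c.need_b hu
  rw [hA u hu, hC] at hnb
  rw [hA u hu] at hdeg
  refine ⟨hA u hu, hC, by omega, hdeg.2.2.2.1, ?_, hnb⟩
  show (M.filter fun y => G.Adj y u).card ≤ ∑ y ∈ M.filter (fun y => G.Adj y u), (N G y ∩ S).card
  rw [Finset.card_eq_sum_ones]
  refine Finset.sum_le_sum fun y hy => ?_
  rw [Nat.one_le_iff_ne_zero, ← Nat.pos_iff_ne_zero, Finset.card_pos]
  exact ⟨u, Finset.mem_inter.2 ⟨(mem_N G).2 (Finset.mem_filter.1 hy).2, hu⟩⟩

/-- `∑ β = ∑ B²` -/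
theorem sum_cb (G : Digraph V) (S M : Finset V) :
    ∑ u ∈ S, cb G S M u = ∑ y ∈ M, (N G y ∩ S).card * (N G y ∩ S).card := by
  unfold cb
  simp only [Finset.sum_filter]
  rw [Finset.sum_comm]
  refine Finset.sum_congr rfl fun y _ => ?_
  rw [← Finset.sum_filter, Finset.sum_const, smul_eq_mul]
  congr 2
  ext w
  rw [Finset.mem_filter, Finset.mem_inter, mem_N, and_comm]

end Pool.Agent.H39.S7
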