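import Pool.Agent.H39.S7.G.H3a

/-! Row G9b (about 150 lines). `|M| = 6`, `T ∈ {6, 7}`, all `A u = 3`, all `D u ≥ 5`.
Notation `A, C, D, t`, `T`, `K = |W|` of the files above; `B y = |N y ∩ S|` for `y ∈ M`;
`β u = ∑_{y ∈ M, y → u} B y`.
(6) `|M| = 6`, `5 ≤ T ≤ 9`: `D u = 4` impossible, so `t u ≤ 1`, so `T ≤ 7`. If `t u = 1` then `D u = 5`, `β u ≤ T - 5`. `T = 5`: `t u = 1`
  gives `β u ≤ 0`, contradiction with `β u ≥ t u`; so `T = 0`.
  `T ∈ {6, 7}`: for `u` with `t u = 1` let `y_u ∈ M` be the vertex with `y_u → u`; as `D u = 5`, `M \ N u = {y_u}`; `B y_u ≤ T - 5 ≤ 2`.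
  Let `u ∈ S` with `t u = 1`. The set `{v ∈ S : ¬ v → y_u}` has at most `2` elements: such `v` with `t v = 1` has `y_v = y_u`, so it is
  counted by `B y_u ≤ T - 5`, and there are at most `7 - T` vertices with `t v = 0`. So some `v ∈ N u ∩ S` (three elements)
  has `v → y_u`, so `cz u = 0`. By `Cfg7.bad3`: `3 + 6 + K + 1 ≤ 3 + 10 + 0 + |W \ N2 u|`, that is `|W \ N2 u| ≥ K - 3`.
  As `B y_u ≤ 2` and `T ≥ 6`, there is `u'` with `t u' = 1` and `y_{u'} ≠ y_u`. The sets `Q = W \ N2 u`, `Q' = W \ N2 u'` are disjoint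
  (a `w ∈ W` in both has no in-neighbour in `M`: it is not in `N u ∩ M = M \ {y_u}` and not in `M \ {y_{u'}}`; against `hWin`).
  Missing arcs: for `w ∈ Q` all five `y ≠ y_u`, for `w ∈ Q'` all five `y ≠ y_{u'}`. So
  `7·6 ≤ ∑_{y∈M}|N y| ≤ T + 15 + 6K - 5(|Q| + |Q'|)`, i.e. `10 (K - 3) ≤ 6K + T - 27`, `4K ≤ 3 + T ≤ 10`, `K ≤ 2`; but
  `6 K ≥ 27 - T ≥ 20` (`Cfg7.K_ge`) gives `K ≥ 4`. Contradiction.
Use `Cfg7.sumW` with `inc G M w ≤ 1` for `w ∈ Q ∪ Q'` and `≤ 6` for the other `w ∈ W` for the count of the missing arcs. -/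

set_option autoImplicit false

namespace Pool.Agent.H39.S7

open Classical Pool.Agent.H39.Burckel

variable {V : Type} [Fintype V] {G : Digraph V} {S M W : Finset V}

/-- the facts on a vertex `u` with `t u = 1` and the vertex `y` of `M` with `y → u` -/
structure Good67 (G : Digraph V) (S M : Finset V) (u y : V) : Prop where
  hy : y ∈ M
  hyu : G.Adj y u
  all : ∀ z ∈ M, z ≠ y → G.Adj u z
  hB : (N G y ∩ S).card + 5 ≤ cT G S M

theorem Cfg7.good67 (c : Cfg7 G S M W) (hmin : ∀ u ∈ S, 3 ≤ cA G S u) (hM : M.card = 6)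
    (hD : ∀ u ∈ S, 5 ≤ cD G M u) {u : V} (hu : u ∈ S) (ht : inc G M u = 1) :
    ∃ y, Good67 G S M u y := by
  obtain ⟨h1, h2, h3, h4, h5, h6⟩ := c.reg_facts hmin u hu
  have h7 := hD u hu
  have h8 : cD G M u = 5 := by omega
  have n5 : need 3 3 5 = 5 := by decide
  rw [h8, n5] at h6
  have ht' := ht
  unfold inc at ht'
  obtain ⟨y, hy⟩ := Finset.card_eq_one.1 ht'
  have hy1 : y ∈ M.filter (fun y => G.Adj y u) := by
    rw [hy]
    exact Finset.mem_singleton_self y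
  rw [Finset.mem_filter] at hy1
  refine ⟨y, hy1.1, hy1.2, ?_, ?_⟩
  · intro z hz hzy
    by_contra hcon
    have h9 : ({y, z} : Finset V) ⊆ M \ N G u := by
      intro w hw
      rw [Finset.mem_insert, Finset.mem_singleton] at hw
      rw [Finset.mem_sdiff, mem_N]
      rcases hw with rfl | rfl
      · exact ⟨hy1.1, c.hG _ _ hy1.2⟩
      · exact ⟨hz, hcon⟩
    have h10 := Finset.card_le_card h9
    rw [Finset.card_pair hzy.symm] at h10
    have h11 := Finset.card_sdiff_add_card_inter M (N G u)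
    rw [Finset.inter_comm] at h11
    unfold cD at h8
    omega
  · unfold cb at h6
    rw [hy, Finset.sum_singleton] at h6
    omega

theorem Cfg7.cnt67 (c : Cfg7 G S M W) (hmin : ∀ u ∈ S, 3 ≤ cA G S u) (hM : M.card = 6)
    (hD : ∀ u ∈ S, 5 ≤ cD G M u) :
    (∀ u ∈ S, inc G M u ≤ 1) ∧ (S.filter (fun v => inc G M v = 0)).card + cT G S M = 7 ∧
      (S.filter (fun v => inc G M v = 1)).card = cT G S M := by
  have ht : ∀ u ∈ S, inc G M u ≤ 1 := by
    intro u hu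
    obtain ⟨h1, h2, h3, h4, h5, h6⟩ := c.reg_facts hmin u hu
    have h7 := hD u hu
    omega
  refine ⟨ht, ?_, ?_⟩
  · rw [Finset.card_filter, cT, ← Finset.sum_add_distrib, ← c.hS, Finset.card_eq_sum_ones]
    apply Finset.sum_congr rfl
    intro v hv
    have := ht v hv
    split_ifs with h
    · omega
    · omega
  · rw [Finset.card_filter, cT]
    apply Finset.sum_congr rfl
    intro v hv
    have := ht v hv
    split_ifs with h
    · omega
    · omega

theorem Cfg7.gz67 (c : Cfg7 G S M W) (hmin : ∀ u ∈ S, 3 ≤ cA G S u) (hM : M.card = 6)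
    (hD : ∀ u ∈ S, 5 ≤ cD G M u) {u y : V} (hu : u ∈ S) (hg : Good67 G S M u y) :
    cz G M u = 0 := by
  obtain ⟨ht, h0, -⟩ := c.cnt67 hmin hM hD
  have hsub : S.filter (fun v => ¬ G.Adj v y) ⊆
      (N G y ∩ S) ∪ S.filter (fun v => inc G M v = 0) := by
    intro v hv
    rw [Finset.mem_filter] at hv
    rw [Finset.mem_union, Finset.mem_inter, Finset.mem_filter, mem_N]
    rcases Nat.eq_zero_or_pos (inc G M v) with h | h
    · exact Or.inr ⟨hv.1, h⟩
    · left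
      have h1 : inc G M v = 1 := by
        have := ht v hv.1
        omega
      obtain ⟨y', hg'⟩ := c.good67 hmin hM hD hv.1 h1
      by_cases h2 : y = y'
      · rw [h2]
        exact ⟨hg'.hyu, hv.1⟩
      · exact (hv.2 (hg'.all y hg.hy h2)).elim
  have h1 := (Finset.card_le_card hsub).trans (Finset.card_union_le _ _)
  have h2 := hg.hB
  obtain ⟨g1, -, -, -, -, -⟩ := c.reg_facts hmin u hu
  unfold cA at g1
  obtain ⟨v, hv1, hv2⟩ : ∃ v ∈ N G u ∩ S, v ∉ S.filter (fun v => ¬ G.Adj v y) := by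
    by_contra hcon
    push Not at hcon
    have := Finset.card_le_card (fun v hv => hcon v hv)
    omega
  rw [Finset.mem_inter, mem_N] at hv1
  rw [Finset.mem_filter] at hv2
  push Not at hv2
  have hvy := hv2 hv1.2
  unfold cz
  rw [Finset.card_eq_zero, Finset.eq_empty_iff_forall_notMem]
  intro z hz
  rw [Finset.mem_sdiff, Finset.mem_union] at hz
  apply hz.2
  by_cases hzy : z = y
  · right
    rw [hzy, mem_N2]
    refine ⟨?_, c.hG _ _ hg.hyu, v, hv1.1, hvy⟩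
    rintro rfl
    exact (Finset.disjoint_left.1 c.hdSM) hu hg.hy
  · left
    rw [mem_N]
    exact hg.all z hz.1 hzy

theorem Cfg7.gq67 (c : Cfg7 G S M W) (hmin : ∀ u ∈ S, 3 ≤ cA G S u) (hM : M.card = 6)
    (hD : ∀ u ∈ S, 5 ≤ cD G M u) {u y : V} (hu : u ∈ S) (ht : inc G M u = 1)
    (hg : Good67 G S M u y) :
    W.card ≤ 3 + (W \ N2 G u).card ∧ ∀ w ∈ W \ N2 G u, ∀ z ∈ M, G.Adj z w → z = y := by
  constructor
  · obtain ⟨h1, h2, h3, h4, h5, h6⟩ := c.reg_facts hmin u hu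
    have h7 := hD u hu
    have h8 := c.bad3 hu
    rw [c.gz67 hmin hM hD hu hg] at h8
    omega
  · intro w hw z hz hzw
    by_contra hzy
    rw [Finset.mem_sdiff] at hw
    apply hw.2
    rw [mem_N2]
    refine ⟨?_, ?_, z, hg.all z hz hzy, hzw⟩
    · rintro rfl
      exact (Finset.disjoint_left.1 c.hdSW) hu hw.1
    · intro huw
      have h1 := c.hSM u hu ((mem_N G).2 huw)
      rw [Finset.mem_union] at h1
      rcases h1 with h1 | h1
      · exact (Finset.disjoint_left.1 c.hdSW) h1 hw.1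
      · exact (Finset.disjoint_left.1 c.hdMW) h1 hw.1

theorem Cfg7.reg67 (c : Cfg7 G S M W) (hmin : ∀ u ∈ S, 3 ≤ cA G S u) (hM : M.card = 6)
    (h6 : 6 ≤ cT G S M) (h7 : cT G S M ≤ 7) (hD : ∀ u ∈ S, 5 ≤ cD G M u) : False := by
  obtain ⟨ht, h0, h1⟩ := c.cnt67 hmin hM hD
  obtain ⟨u, hu⟩ : (S.filter (fun v => inc G M v = 1)).Nonempty := by
    rw [← Finset.card_pos]
    omega
  rw [Finset.mem_filter] at hu
  obtain ⟨y, hg⟩ := c.good67 hmin hM hD hu.1 hu.2
  have hB := hg.hB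
  obtain ⟨u', hu'1, hu'2⟩ : ∃ v ∈ S.filter (fun v => inc G M v = 1), v ∉ N G y ∩ S := by
    by_contra hcon
    push Not at hcon
    have := Finset.card_le_card (fun v hv => hcon v hv)
    omega
  rw [Finset.mem_filter] at hu'1
  obtain ⟨y', hg'⟩ := c.good67 hmin hM hD hu'1.1 hu'1.2
  have hyy : y ≠ y' := by
    intro h
    apply hu'2
    rw [h, Finset.mem_inter, mem_N]
    exact ⟨hg'.hyu, hu'1.1⟩
  obtain ⟨q1, q2⟩ := c.gq67 hmin hM hD hu.1 hu.2 hg
  obtain ⟨q1', q2'⟩ := c.gq67 hmin hM hD hu'1.1 hu'1.2 hg'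
  obtain ⟨Q, hQ⟩ : ∃ Q, Q = W \ N2 G u := ⟨_, rfl⟩
  obtain ⟨Q', hQ'⟩ : ∃ Q, Q = W \ N2 G u' := ⟨_, rfl⟩
  rw [← hQ] at q1 q2
  rw [← hQ'] at q1' q2'
  have hQW : Q ⊆ W := by rw [hQ]; exact Finset.sdiff_subset
  have hQW' : Q' ⊆ W := by rw [hQ']; exact Finset.sdiff_subset
  have hdis : Disjoint Q Q' := by
    rw [Finset.disjoint_left]
    intro w hw hw'
    obtain ⟨z, hz, hzw⟩ := c.hWin w (hQW hw)
    exact hyy ((q2 w hw z hz hzw).symm.trans (q2' w hw' z hz hzw))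
  have hinc1 : ∀ w ∈ Q ∪ Q', inc G M w ≤ 1 := by
    intro w hw
    unfold inc
    rw [Finset.card_le_one]
    intro a ha b hb
    rw [Finset.mem_filter] at ha hb
    rcases Finset.mem_union.1 hw with hw | hw
    · rw [q2 w hw a ha.1 ha.2, q2 w hw b hb.1 hb.2]
    · rw [q2' w hw a ha.1 ha.2, q2' w hw b hb.1 hb.2]
  have hinc6 : ∀ w ∈ W \ (Q ∪ Q'), inc G M w ≤ 6 := by
    intro w _
    rw [← hM]
    exact Finset.card_le_card (Finset.filter_subset _ _)
  have hsub : Q ∪ Q' ⊆ W := Finset.union_subset hQW hQW'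
  have s1 := Finset.sum_le_sum hinc1
  have s2 := Finset.sum_le_sum hinc6
  have s3 := Finset.sum_sdiff hsub (f := fun w => inc G M w)
  rw [Finset.sum_const, smul_eq_mul] at s1 s2
  have s4 := Finset.card_sdiff_add_card_eq_card hsub
  have s5 := Finset.card_union_of_disjoint hdis
  have s6 := c.sumW
  rw [hM] at s6
  omega

end Pool.Agent.H39.S7
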