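import Pool.Agent.H39.S7.G.L1

/-! Row G5 (about 120 lines). `|M| = 6`, `|W| = 4`, `T = 3` is impossible when `x` has the largest `T` among the vertices of
out-degree seven.
Proof. `42 ≤ ∑_{y∈M} |N y| = ∑ |N y ∩ S| + ∑ |N y ∩ M| + ∑ |N y ∩ W| ≤ 3 + 15 + 24 = 42`. So all are equalities:
(i) `|N y| = 7` for all `y ∈ M`; (ii) `W ⊆ N y` for all `y ∈ M`; (iii) `∑_{y∈M} |N y ∩ M| = 15`, so any two distinct `y, y' ∈ M`
are adjacent (one of the arcs is present: otherwise the pairs count at most 14; e.g. apply `sum_inside`-like counting: for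
`y ≠ y'` non adjacent, `∑_{y∈M} |N y ∩ M| ≤ 14`. One way: `∑_{y ∈ M} (|N y ∩ M| + inc M y) = 2 * ∑ |N y ∩ M| = 30` (`dc`) and
`|N y ∩ M| + inc M y ≤ 5` for each `y` (disjoint subsets of `M \ {y}`), so equality, `M \ {y} = (N y ∩ M) ∪ (in-neighbours)`).
So `|N y ∩ M| ≤ 7 - 4 = 3`. Take `y ∈ M` with `m y = |N y ∩ M|` maximal. As `|M \ {y}| = 5 > 3` there is `p ∈ M`, `p ≠ y`,
`¬ y → p`, so `p → y`. If `p → q` for all `q ∈ N y ∩ M` then `m p ≥ m y + 1`, contradiction. So there is `q ∈ N y ∩ M` with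
`¬ p → q`, so `q → p` (`q ≠ p`, since `¬ y → p`). Then `p ∈ N2 y`, and `p → w`, `y → w` for the four `w ∈ W`. So
`∑_{v ∈ N y} inc (N2 y) v ≥ ∑_{w∈W} inc (N2 y) w ≥ 4 > 3`, against `hmax` for `y` (`|N y| = 7`). -/

set_option autoImplicit false

namespace Pool.Agent.H39.S7

open Classical Pool.Agent.H39.Burckel

variable {V : Type} [Fintype V] {G : Digraph V} {S M W : Finset V}

theorem Cfg7.not_three (c : Cfg7 G S M W) (hM : M.card = 6) (hW : W.card = 4)
    (hmax : ∀ y, (N G y).card = 7 → cT G (N G y) (N2 G y) ≤ cT G S M) (hT : cT G S M = 3) : False := by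
  have hsumS : ∑ y ∈ M, (N G y ∩ S).card = 3 := by
    rw [dc G M S]
    exact hT
  have hsumM : ∑ y ∈ M, (N G y ∩ M).card ≤ 15 := by
    have := sum_inside G c.hG M
    rw [hM] at this
    omega
  have hWle : ∀ y : V, (N G y ∩ W).card ≤ 4 := fun y => by
    rw [← hW]
    exact Finset.card_le_card Finset.inter_subset_right
  have hsplit : ∀ y ∈ M, (N G y).card ≤
      (N G y ∩ S).card + (N G y ∩ M).card + (N G y ∩ W).card := by
    intro y hy
    have hsub : N G y ⊆ (N G y ∩ S) ∪ (N G y ∩ M) ∪ (N G y ∩ W) := by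
      intro w hw
      have h1 := c.hMW y hy hw
      simp only [Finset.mem_union, Finset.mem_inter] at h1 ⊢
      tauto
    have h2 := Finset.card_le_card hsub
    have h3 := Finset.card_union_le ((N G y ∩ S) ∪ (N G y ∩ M)) (N G y ∩ W)
    have h4 := Finset.card_union_le (N G y ∩ S) (N G y ∩ M)
    omega
  have hup : ∑ y ∈ M, (N G y).card ≤ ∑ y ∈ M, (N G y ∩ S).card + ∑ y ∈ M, (N G y ∩ M).card
      + ∑ y ∈ M, (N G y ∩ W).card := by
    rw [← Finset.sum_add_distrib, ← Finset.sum_add_distrib]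
    exact Finset.sum_le_sum hsplit
  have hlowN : ∀ y ∈ M, (N G y).card + 35 ≤ ∑ y ∈ M, (N G y).card := by
    intro y hy
    rw [← Finset.add_sum_erase M (fun y => (N G y).card) hy]
    have h5 : (M.erase y).card = 5 := by
      rw [Finset.card_erase_of_mem hy]
      omega
    have : ∑ z ∈ M.erase y, 7 ≤ ∑ z ∈ M.erase y, (N G z).card :=
      Finset.sum_le_sum fun z _ => c.hdeg z
    rw [Finset.sum_const, h5, smul_eq_mul] at this
    omega
  have hupW : ∀ y ∈ M, ∑ y ∈ M, (N G y ∩ W).card ≤ (N G y ∩ W).card + 20 := by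
    intro y hy
    rw [← Finset.add_sum_erase M (fun y => (N G y ∩ W).card) hy]
    have h5 : (M.erase y).card = 5 := by
      rw [Finset.card_erase_of_mem hy]
      omega
    have : ∑ z ∈ M.erase y, (N G z ∩ W).card ≤ ∑ z ∈ M.erase y, 4 :=
      Finset.sum_le_sum fun z _ => hWle z
    rw [Finset.sum_const, h5, smul_eq_mul] at this
    omega
  -- (i) and (ii)
  have hseven : ∀ y ∈ M, (N G y).card = 7 := by
    intro y hy
    have h1 := hlowN y hy
    have h2 := hupW y hy
    have h3 := hWle y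
    have h4 := c.hdeg y
    omega
  have hWin : ∀ y ∈ M, (N G y ∩ W).card = 4 := by
    intro y hy
    have h1 := hlowN y hy
    have h2 := hupW y hy
    have h3 := hWle y
    have h4 := c.hdeg y
    omega
  have hWN : ∀ y ∈ M, W ⊆ N G y := by
    intro y hy
    have h1 : N G y ∩ W = W :=
      Finset.eq_of_subset_of_card_le Finset.inter_subset_right (by rw [hWin y hy, hW])
    rw [← h1]
    exact Finset.inter_subset_left
  -- (iii)
  have h15 : 15 ≤ ∑ y ∈ M, (N G y ∩ M).card := by
    have h0 : M.Nonempty := by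
      rw [← Finset.card_pos]
      omega
    obtain ⟨y, hy⟩ := h0
    have h1 := hlowN y hy
    have h2 := hupW y hy
    have h3 := hWle y
    have h4 := c.hdeg y
    omega
  have hdisj : ∀ y : V, Disjoint (N G y ∩ M) (M.filter fun z => G.Adj z y) := by
    intro y
    rw [Finset.disjoint_left]
    intro z hz hz'
    rw [Finset.mem_inter, mem_N] at hz
    rw [Finset.mem_filter] at hz'
    exact c.hG _ _ hz.1 hz'.2
  have hsubE : ∀ y : V, (N G y ∩ M) ∪ (M.filter fun z => G.Adj z y) ⊆ M.erase y := by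
    intro y z hz
    rw [Finset.mem_union, Finset.mem_inter, mem_N, Finset.mem_filter] at hz
    rw [Finset.mem_erase]
    rcases hz with hz | hz
    · refine ⟨?_, hz.2⟩
      rintro rfl
      exact c.hG _ _ hz.1 hz.1
    · refine ⟨?_, hz.1⟩
      rintro rfl
      exact c.hG _ _ hz.2 hz.2
  have hle5 : ∀ y ∈ M, (N G y ∩ M).card + inc G M y ≤ 5 := by
    intro y hy
    have h1 := Finset.card_le_card (hsubE y)
    rw [Finset.card_union_of_disjoint (hdisj y), Finset.card_erase_of_mem hy, hM] at h1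
    unfold inc
    omega
  have h30 : 30 ≤ ∑ y ∈ M, ((N G y ∩ M).card + inc G M y) := by
    rw [Finset.sum_add_distrib, ← dc G M M]
    omega
  have heq5 : ∀ y ∈ M, (N G y ∩ M).card + inc G M y = 5 := by
    intro y hy
    have h1 := hle5 y hy
    rw [← Finset.add_sum_erase M (fun y => (N G y ∩ M).card + inc G M y) hy] at h30
    have h5 : (M.erase y).card = 5 := by
      rw [Finset.card_erase_of_mem hy]
      omega
    have : ∑ z ∈ M.erase y, ((N G z ∩ M).card + inc G M z) ≤ ∑ z ∈ M.erase y, 5 :=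
      Finset.sum_le_sum fun z hz => hle5 z (Finset.mem_of_mem_erase hz)
    rw [Finset.sum_const, h5, smul_eq_mul] at this
    omega
  have hadj : ∀ y ∈ M, ∀ z ∈ M, z ≠ y → ¬ G.Adj y z → G.Adj z y := by
    intro y hy z hz hzy hn
    have h1 : (N G y ∩ M) ∪ (M.filter fun z => G.Adj z y) = M.erase y := by
      apply Finset.eq_of_subset_of_card_le (hsubE y)
      rw [Finset.card_union_of_disjoint (hdisj y), Finset.card_erase_of_mem hy, hM]
      have := heq5 y hy
      unfold inc at this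
      omega
    have h2 : z ∈ M.erase y := Finset.mem_erase.2 ⟨hzy, hz⟩
    rw [← h1, Finset.mem_union, Finset.mem_inter, mem_N, Finset.mem_filter] at h2
    rcases h2 with h2 | h2
    · exact absurd h2.1 hn
    · exact h2.2
  have hm3 : ∀ y ∈ M, (N G y ∩ M).card ≤ 3 := by
    intro y hy
    have h1 : Disjoint (N G y ∩ M) (N G y ∩ W) :=
      c.hdMW.mono Finset.inter_subset_right Finset.inter_subset_right
    have h2 : (N G y ∩ M) ∪ (N G y ∩ W) ⊆ N G y :=
      Finset.union_subset Finset.inter_subset_left Finset.inter_subset_left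
    have h3 := Finset.card_le_card h2
    rw [Finset.card_union_of_disjoint h1, hWin y hy, hseven y hy] at h3
    omega
  -- the vertex with the most out-neighbours inside `M`
  have h0 : M.Nonempty := by
    rw [← Finset.card_pos]
    omega
  obtain ⟨y, hy, hymax⟩ := Finset.exists_max_image M (fun y => (N G y ∩ M).card) h0
  have hlt : (N G y ∩ M).card < (M.erase y).card := by
    rw [Finset.card_erase_of_mem hy, hM]
    have := hm3 y hy
    omega
  obtain ⟨p, hp, hpn⟩ := Finset.exists_mem_notMem_of_card_lt_card hlt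
  rw [Finset.mem_erase] at hp
  have hyp : ¬ G.Adj y p := fun h => hpn (Finset.mem_inter.2 ⟨(mem_N G).2 h, hp.2⟩)
  have hpy : G.Adj p y := hadj y hy p hp.2 hp.1 hyp
  have hq : ∃ q ∈ N G y ∩ M, ¬ G.Adj p q := by
    by_contra hcon
    push Not at hcon
    have hsub : insert y (N G y ∩ M) ⊆ N G p ∩ M := by
      intro z hz
      rw [Finset.mem_insert] at hz
      rw [Finset.mem_inter, mem_N]
      rcases hz with rfl | hz
      · exact ⟨hpy, hy⟩
      · exact ⟨hcon z hz, (Finset.mem_inter.1 hz).2⟩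
    have hyn : y ∉ N G y ∩ M := by
      intro h
      rw [Finset.mem_inter, mem_N] at h
      exact c.hG _ _ h.1 h.1
    have h1 := Finset.card_le_card hsub
    rw [Finset.card_insert_of_notMem hyn] at h1
    have h2 := hymax p hp.2
    omega
  obtain ⟨q, hq1, hq2⟩ := hq
  rw [Finset.mem_inter, mem_N] at hq1
  have hqp : q ≠ p := by
    rintro rfl
    exact hyp hq1.1
  have hqp' : G.Adj q p := hadj p hp.2 q hq1.2 hqp hq2
  have hpN2 : p ∈ N2 G y := mem_N2_of G c.hG hq1.1 hqp' hyp
  have h1 : ∑ w ∈ W, 1 ≤ ∑ w ∈ W, inc G (N2 G y) w := by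
    apply Finset.sum_le_sum
    intro w hw
    unfold inc
    rw [Nat.one_le_iff_ne_zero, Finset.card_ne_zero]
    exact ⟨p, Finset.mem_filter.2 ⟨hpN2, (mem_N G).1 (hWN p hp.2 hw)⟩⟩
  have h2 : ∑ w ∈ W, inc G (N2 G y) w ≤ ∑ w ∈ N G y, inc G (N2 G y) w :=
    Finset.sum_le_sum_of_subset (hWN y hy)
  have h3 := hmax y (hseven y hy)
  unfold cT at h3 hT
  rw [Finset.sum_const, hW, smul_eq_mul] at h1
  omega

end Pool.Agent.H39.S7
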