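import Pool.Agent.H39.S7.G.Base

/-! Row G1 (about 110 lines). Elementary facts on the configuration. Compare `Pool/Agent/H39/BurckelSix.lean`
(`Cfg.split`, `Cfg.degS`, `Cfg.tD`, `Cfg.sumM`, theorem `sum_inside`, `dc`), where the same is done for six.
* `deg`: `N u ⊆ S ∪ M` disjoint, `7 ≤ |N u|`, `|N u ∩ S| ≤ 6` (as `u` is not in it), `|M| ≤ 6`.
* `nM`: the in-neighbours of `v` in `M` and `N u ∩ M` meet, since their numbers add up to more than `|M|`.
* `T_le`: sum `7 ≤ A u + D u`, `D u + t u ≤ |M|` over `S` and `∑ A ≤ 21` (`sum_inside`).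
* `K_ge`: `∑_{y ∈ M} |N y| ≥ 7 |M|`; `N y ⊆ S ∪ M ∪ W`; `∑_{y∈M} |N y ∩ S| = T` (`dc`), `∑_{y∈M}|N y ∩ M| ≤ |M|(|M|-1)/2`
  (`sum_inside`), `|N y ∩ W| ≤ |W|`. -/

set_option autoImplicit false

namespace Pool.Agent.H39.S7

open Classical Pool.Agent.H39.Burckel

variable {V : Type} [Fintype V] {G : Digraph V} {S M W : Finset V}

theorem Cfg7.split (c : Cfg7 G S M W) {u : V} (hu : u ∈ S) :
    (N G u).card = cA G S u + cD G M u := by
  unfold cA cD
  rw [← Finset.card_union_of_disjoint (c.hdSM.mono Finset.inter_subset_right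
    Finset.inter_subset_right), ← Finset.inter_union_distrib_left]
  congr 1
  rw [Finset.inter_eq_left.2]
  exact c.hSM u hu

theorem Cfg7.tD_L1 (c : Cfg7 G S M W) (v : V) : cD G M v + inc G M v ≤ M.card := by
  unfold inc cD
  rw [← Finset.card_union_of_disjoint]
  · apply Finset.card_le_card
    intro w hw
    rw [Finset.mem_union, Finset.mem_filter, Finset.mem_inter] at hw
    tauto
  · rw [Finset.disjoint_left]
    intro w hw hw'
    rw [Finset.mem_filter] at hw'
    rw [Finset.mem_inter, mem_N] at hw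
    exact c.hG _ _ hw'.2 hw.1

theorem Cfg7.deg (c : Cfg7 G S M W) {u : V} (hu : u ∈ S) :
    7 ≤ cA G S u + cD G M u ∧ 1 ≤ cA G S u ∧ 1 ≤ cD G M u ∧ cD G M u + inc G M u ≤ M.card ∧
      cA G S u ≤ 6 := by
  have h1 : 7 ≤ cA G S u + cD G M u := by
    rw [← c.split hu]
    exact c.hdeg u
  have h2 : cD G M u ≤ M.card := Finset.card_le_card Finset.inter_subset_right
  have h3 := c.hM
  have h4 : cA G S u ≤ 6 := by
    have hsub : N G u ∩ S ⊆ S.erase u := by
      intro w hw
      rw [Finset.mem_inter, mem_N] at hw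
      rw [Finset.mem_erase]
      refine ⟨?_, hw.2⟩
      rintro rfl
      exact c.hG _ _ hw.1 hw.1
    have h5 := Finset.card_le_card hsub
    rw [Finset.card_erase_of_mem hu, c.hS] at h5
    exact h5
  exact ⟨h1, by omega, by omega, c.tD_L1 u, h4⟩

theorem Cfg7.nM (c : Cfg7 G S M W) {u v : V} (h : M.card < cD G M u + inc G M v) (hne : u ≠ v)
    (hna : ¬ G.Adj u v) : v ∈ N2 G u := by
  by_contra hcon
  have hd : Disjoint (N G u ∩ M) (M.filter fun y => G.Adj y v) := by
    rw [Finset.disjoint_left]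
    intro y hy hy'
    rw [Finset.mem_inter, mem_N] at hy
    rw [Finset.mem_filter] at hy'
    exact hcon (mem_N2_of G c.hG hy.1 hy'.2 hna)
  have hsub : (N G u ∩ M) ∪ (M.filter fun y => G.Adj y v) ⊆ M := by
    intro y hy
    rw [Finset.mem_union, Finset.mem_inter, Finset.mem_filter] at hy
    tauto
  have h1 := Finset.card_le_card hsub
  rw [Finset.card_union_of_disjoint hd] at h1
  unfold cD inc at h
  omega

theorem Cfg7.sumA (c : Cfg7 G S M W) : ∑ u ∈ S, cA G S u ≤ 21 := by
  have h := sum_inside G c.hG S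
  rw [c.hS] at h
  unfold cA
  omega

theorem Cfg7.T_le (c : Cfg7 G S M W) : cT G S M + 28 ≤ 7 * M.card := by
  have h1 : ∑ v ∈ S, cD G M v + ∑ v ∈ S, inc G M v ≤ 7 * M.card := by
    rw [← Finset.sum_add_distrib, ← c.hS, ← smul_eq_mul, ← Finset.sum_const]
    exact Finset.sum_le_sum fun v _ => c.tD_L1 v
  have h2 : 49 ≤ ∑ v ∈ S, cA G S v + ∑ v ∈ S, cD G M v := by
    rw [← Finset.sum_add_distrib]
    have : ∑ v ∈ S, 7 ≤ ∑ v ∈ S, (cA G S v + cD G M v) :=
      Finset.sum_le_sum fun v hv => (c.deg hv).1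
    rw [Finset.sum_const, c.hS, smul_eq_mul] at this
    exact this
  have h3 := c.sumA
  unfold cT
  omega

theorem Cfg7.K_ge (c : Cfg7 G S M W) :
    7 * M.card ≤ cT G S M + M.card * (M.card - 1) / 2 + M.card * W.card := by
  have h1 : ∑ y ∈ M, 7 ≤ ∑ y ∈ M, ((N G y ∩ S).card + (N G y ∩ M).card + W.card) := by
    apply Finset.sum_le_sum
    intro y hy
    refine (c.hdeg y).trans ?_
    have hsub : N G y ⊆ (N G y ∩ S) ∪ (N G y ∩ M) ∪ W := by
      intro w hw
      have h2 := c.hMW y hy hw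
      rw [Finset.mem_union, Finset.mem_union] at h2
      rw [Finset.mem_union, Finset.mem_union, Finset.mem_inter, Finset.mem_inter]
      tauto
    refine (Finset.card_le_card hsub).trans ((Finset.card_union_le _ _).trans ?_)
    have := Finset.card_union_le (N G y ∩ S) (N G y ∩ M)
    omega
  rw [Finset.sum_add_distrib, Finset.sum_add_distrib, dc G M S, Finset.sum_const, Finset.sum_const,
    smul_eq_mul, smul_eq_mul] at h1
  have h2 := sum_inside G c.hG M
  have h3 : M.card * M.card - M.card = M.card * (M.card - 1) := by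
    rw [Nat.mul_sub_one]
  rw [h3] at h2
  unfold cT
  have h4 : ∑ v ∈ M, (N G v ∩ M).card ≤ M.card * (M.card - 1) / 2 := by omega
  rw [Nat.mul_comm M.card 7] at h1
  omega

end Pool.Agent.H39.S7
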