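import Mathlib

/-! Row G6 (about 50 lines). Sorting a finite set by a natural number key.
E.g. by induction on the card: take an element with the largest key, sort the rest, and put it last; or use
`Finset.sort`/`List.mergeSort`/`Finset.orderEmbOfFin` on `(k v, index)`. -/

set_option autoImplicit false

namespace Pool.Agent.H39.S7

private theorem exists_sorted_aux {V : Type} [DecidableEq V] [Inhabited V] (k : V → ℕ) (n : ℕ) :
    ∀ s : Finset V, s.card = n →
    ∃ g : ℕ → V, (∀ i < n, ∀ j < n, g i = g j → i = j) ∧ (∀ i < n, g i ∈ s) ∧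
      (∀ v ∈ s, ∃ i < n, g i = v) ∧ ∀ i, i + 1 < n → k (g i) ≤ k (g (i + 1)) := by
  induction n with
  | zero =>
    intro s hs
    rw [Finset.card_eq_zero] at hs
    subst hs
    exact ⟨fun _ => default, fun i hi => absurd hi (Nat.not_lt_zero i),
      fun i hi => absurd hi (Nat.not_lt_zero i), fun v hv => absurd hv (Finset.notMem_empty v),
      fun i hi => absurd hi (Nat.not_lt_zero _)⟩
  | succ n ih =>
    intro s hs
    have hne : s.Nonempty := by
      rw [← Finset.card_pos, hs]
      exact Nat.succ_pos n
    obtain ⟨v, hv, hmax⟩ := Finset.exists_max_image s k hne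
    have hcard : (s.erase v).card = n := by
      rw [Finset.card_erase_of_mem hv, hs, Nat.add_sub_cancel]
    obtain ⟨g, h1, h2, h3, h4⟩ := ih (s.erase v) hcard
    have hgv : ∀ i < n, g i ≠ v := fun i hi => Finset.ne_of_mem_erase (h2 i hi)
    refine ⟨fun i => if i < n then g i else v, ?_, ?_, ?_, ?_⟩
    · intro i hi j hj hij
      by_cases hi' : i < n
      · by_cases hj' : j < n
        · simp only [hi', hj', if_true] at hij
          exact h1 i hi' j hj' hij
        · simp only [hi', hj', if_true, if_false] at hij
          exact absurd hij (hgv i hi')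
      · by_cases hj' : j < n
        · simp only [hi', hj', if_true, if_false] at hij
          exact absurd hij.symm (hgv j hj')
        · omega
    · intro i hi
      by_cases hi' : i < n
      · simp only [hi', if_true]
        exact Finset.mem_of_mem_erase (h2 i hi')
      · simp only [hi', if_false]
        exact hv
    · intro w hw
      by_cases hwv : w = v
      · exact ⟨n, Nat.lt_succ_self n, by simp [hwv]⟩
      · obtain ⟨i, hi, hgi⟩ := h3 w (Finset.mem_erase.2 ⟨hwv, hw⟩)
        exact ⟨i, Nat.lt_succ_of_lt hi, by simp only [hi, if_true]; exact hgi⟩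
    · intro i hi
      have hi' : i < n := Nat.lt_of_succ_lt_succ hi
      by_cases hj : i + 1 < n
      · simp only [hi', hj, if_true]
        exact h4 i hj
      · simp only [hi', hj, if_true, if_false]
        exact hmax _ (Finset.mem_of_mem_erase (h2 i hi'))

theorem exists_sorted {V : Type} [DecidableEq V] [Inhabited V] (s : Finset V) (k : V → ℕ) :
    ∃ g : ℕ → V, (∀ i < s.card, ∀ j < s.card, g i = g j → i = j) ∧ (∀ i < s.card, g i ∈ s) ∧
      (∀ v ∈ s, ∃ i < s.card, g i = v) ∧ ∀ i, i + 1 < s.card → k (g i) ≤ k (g (i + 1)) :=
  exists_sorted_aux k s.card s rfl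

end Pool.Agent.H39.S7
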