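import Pool.Agent.H39.S7.G.L1
import Pool.Agent.H39.S7.G.Sort

/-! Row G7 (about 130 lines). The labelling of `S` by `0,...,6`.
Take `u0 ∈ S` minimising `8 * A u + D u` over `S` (`Finset.exists_min_image`). Since `D ≤ 6 < 8`, `A u0` is minimal, so
`A u0 = al`. Let `N u0 ∩ S = {p 1, ..., p al}` with, for `al = 2`, `¬ p 2 → p 1` (swap them if necessary; oriented).
Let `R = S \ ({u0} ∪ (N u0 ∩ S))`, `|R| = 6 - al`. Sort `R` by `exists_sorted` with the key
`2048 * (if p al → v then 0 else 1) + 1024 * (if p 1 → v then 0 else 1) + 512 * (if v → u0 then 1 else 0) + 64 * A v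
 + 8 * (7 - D v) + t v`, giving `g`. Put `f 0 = u0`, `f i = p i` for `1 ≤ i ≤ al`, `f i = g (i - al - 1)` for `i > al`. -/

set_option autoImplicit false

namespace Pool.Agent.H39.S7

open Classical Pool.Agent.H39.Burckel

variable {V : Type} [Fintype V] {G : Digraph V} {S M W : Finset V}

omit [Fintype V] in
/-- an enumeration of a set of one or two vertices -/
theorem lab_enum (hG : Oriented G) (P : Finset V) {al : ℕ} (h1 : 1 ≤ al) (h2 : al ≤ 2) (hP : P.card = al) :
    ∃ p : ℕ → V, (∀ i, 1 ≤ i → i ≤ al → p i ∈ P) ∧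
      (∀ i j, 1 ≤ i → i ≤ al → 1 ≤ j → j ≤ al → p i = p j → i = j) ∧
      (∀ v ∈ P, ∃ i, 1 ≤ i ∧ i ≤ al ∧ p i = v) ∧ (al = 2 → ¬ G.Adj (p 2) (p 1)) := by
  have hal : al = 1 ∨ al = 2 := by omega
  rcases hal with rfl | rfl
  · obtain ⟨x, hx⟩ := Finset.card_eq_one.1 hP
    refine ⟨fun _ => x, fun i _ _ => ?_, fun i j hi hi' hj hj' _ => by omega, fun v hv => ⟨1, le_rfl, le_rfl, ?_⟩,
      fun h => by omega⟩
    · rw [hx]; exact Finset.mem_singleton_self x
    · rw [hx, Finset.mem_singleton] at hv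
      exact hv.symm
  · obtain ⟨x, y, hxy, hP'⟩ : ∃ x y : V, x ≠ y ∧ P = {x, y} ∧ ¬ G.Adj y x := by
      obtain ⟨x, y, hxy, hP'⟩ := Finset.card_eq_two.1 hP
      by_cases h : G.Adj y x
      · exact ⟨y, x, hxy.symm, by rw [hP', Finset.pair_comm], hG _ _ h⟩
      · exact ⟨x, y, hxy, hP', h⟩
    refine ⟨fun i => if i = 1 then x else y, fun i hi hi' => ?_, fun i j hi hi' hj hj' he => ?_, fun v hv => ?_,
      fun _ => ?_⟩
    · rw [hP'.1]
      by_cases h : i = 1
      · simp [h]
      · simp [h]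
    · by_cases h : i = 1
      · by_cases h' : j = 1
        · omega
        · simp only [h, h', if_true, if_false] at he
          exact absurd he hxy
      · by_cases h' : j = 1
        · simp only [h, h', if_true, if_false] at he
          exact absurd he.symm hxy
        · omega
    · rw [hP'.1, Finset.mem_insert, Finset.mem_singleton] at hv
      rcases hv with rfl | rfl
      · exact ⟨1, le_rfl, by omega, by simp⟩
      · exact ⟨2, by omega, le_rfl, by simp⟩
    · simp only [if_true]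
      have : ¬ ((2 : ℕ) = 1) := by omega
      simp only [this, if_false]
      exact hP'.2

theorem Cfg7.exists_lab (c : Cfg7 G S M W) {al : ℕ} (h1 : 1 ≤ al) (h2 : al ≤ 2)
    (hex : ∃ u ∈ S, cA G S u = al) (hmin : ∀ u ∈ S, al ≤ cA G S u) :
    ∃ f : ℕ → V, (∀ i < 7, ∀ j < 7, f i = f j → i = j) ∧ (∀ i < 7, f i ∈ S) ∧
      (∀ v ∈ S, ∃ i < 7, f i = v) ∧
      (∀ u < 7, 8 * cA G S (f 0) + cD G M (f 0) ≤ 8 * cA G S (f u) + cD G M (f u)) ∧
      cA G S (f 0) = al ∧ (∀ v < 7, (G.Adj (f 0) (f v) ↔ 1 ≤ v ∧ v ≤ al)) ∧ (al = 2 → ¬ G.Adj (f 2) (f 1)) ∧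
      ∀ u, al < u → u + 1 < 7 →
        key al (fun i j => G.Adj (f i) (f j)) (fun i => cA G S (f i)) (fun i => cD G M (f i))
            (fun i => inc G M (f i)) u
          ≤ key al (fun i j => G.Adj (f i) (f j)) (fun i => cA G S (f i)) (fun i => cD G M (f i))
            (fun i => inc G M (f i)) (u + 1) := by
  obtain ⟨u1, hu1, hau1⟩ := hex
  obtain ⟨u0, hu0, hmin0⟩ := Finset.exists_min_image S (fun u => 8 * cA G S u + cD G M u) ⟨u1, hu1⟩
  have hA0 : cA G S u0 = al := by
    have e1 := hmin0 u1 hu1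
    have e2 := hmin u0 hu0
    have e3 := (c.deg hu1).2.2.2.1
    have e4 := c.hM
    omega
  have hP : (N G u0 ∩ S).card = al := hA0
  obtain ⟨p, hp1, hp2, hp3, hp4⟩ := lab_enum c.hG (N G u0 ∩ S) h1 h2 hP
  have hu0P : u0 ∉ N G u0 ∩ S := by
    intro h
    rw [Finset.mem_inter, mem_N] at h
    exact c.hG _ _ h.1 h.1
  have hPS : N G u0 ∩ S ⊆ S.erase u0 := by
    intro w hw
    rw [Finset.mem_erase]
    refine ⟨fun e => ?_, (Finset.mem_inter.1 hw).2⟩
    rw [e] at hw
    exact hu0P hw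
  have hI : Inhabited V := ⟨u0⟩
  have hR : (S.erase u0 \ (N G u0 ∩ S)).card = 6 - al := by
    rw [Finset.card_sdiff_of_subset hPS, Finset.card_erase_of_mem hu0, c.hS, hP]
  obtain ⟨g, hg1, hg2, hg3, hg4⟩ := exists_sorted (S.erase u0 \ (N G u0 ∩ S))
    (fun v => 2048 * (if G.Adj (p al) v then 0 else 1) + 1024 * (if G.Adj (p 1) v then 0 else 1)
      + 512 * (if G.Adj v u0 then 1 else 0) + 64 * cA G S v + 8 * (7 - cD G M v) + inc G M v)
  rw [hR] at hg1 hg2 hg3 hg4
  obtain ⟨f, hf⟩ : ∃ f : ℕ → V, f = fun i => if i = 0 then u0 else if i ≤ al then p i else g (i - al - 1) := ⟨_, rfl⟩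
  have hf0 : f 0 = u0 := by rw [hf]; simp
  have hfp : ∀ i, 1 ≤ i → i ≤ al → f i = p i := by
    intro i hi hi'
    have : ¬ (i = 0) := by omega
    rw [hf]
    simp only [this, if_false, hi', if_true]
  have hfg : ∀ i, al < i → f i = g (i - al - 1) := by
    intro i hi
    have e1 : ¬ (i = 0) := by omega
    have e2 : ¬ (i ≤ al) := by omega
    rw [hf]
    simp only [e1, e2, if_false]
  have hgR : ∀ i, al < i → i < 7 → f i ∈ S ∧ f i ≠ u0 ∧ f i ∉ N G u0 ∩ S := by
    intro i hi hi'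
    have := hg2 (i - al - 1) (by omega)
    rw [← hfg i hi, Finset.mem_sdiff, Finset.mem_erase] at this
    exact ⟨this.1.2, this.1.1, this.2⟩
  have hpP : ∀ i, 1 ≤ i → i ≤ al → f i ∈ N G u0 ∩ S := by
    intro i hi hi'
    rw [hfp i hi hi']
    exact hp1 i hi hi'
  have hcase : ∀ i : ℕ, i = 0 ∨ (1 ≤ i ∧ i ≤ al) ∨ al < i := by intro i; omega
  refine ⟨f, ?_, ?_, ?_, ?_, ?_, ?_, ?_, ?_⟩
  · intro i hi j hj hij
    rcases hcase i with rfl | hi' | hi'
    · rcases hcase j with rfl | hj' | hj'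
      · rfl
      · have := hpP j hj'.1 hj'.2
        rw [← hij, hf0] at this
        exact absurd this hu0P
      · exact absurd (hij.symm.trans hf0) (hgR j hj' hj).2.1
    · rcases hcase j with rfl | hj' | hj'
      · have := hpP i hi'.1 hi'.2
        rw [hij, hf0] at this
        exact absurd this hu0P
      · rw [hfp i hi'.1 hi'.2, hfp j hj'.1 hj'.2] at hij
        exact hp2 i j hi'.1 hi'.2 hj'.1 hj'.2 hij
      · have := hpP i hi'.1 hi'.2
        rw [hij] at this
        exact absurd this (hgR j hj' hj).2.2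
    · rcases hcase j with rfl | hj' | hj'
      · exact absurd (hij.trans hf0) (hgR i hi' hi).2.1
      · have := hpP j hj'.1 hj'.2
        rw [← hij] at this
        exact absurd this (hgR i hi' hi).2.2
      · rw [hfg i hi', hfg j hj'] at hij
        have := hg1 (i - al - 1) (by omega) (j - al - 1) (by omega) hij
        omega
  · intro i hi
    rcases hcase i with rfl | hi' | hi'
    · rw [hf0]; exact hu0
    · exact (Finset.mem_inter.1 (hpP i hi'.1 hi'.2)).2
    · exact (hgR i hi' hi).1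
  · intro v hv
    by_cases hv0 : v = u0
    · exact ⟨0, by omega, by rw [hf0, hv0]⟩
    · by_cases hvP : v ∈ N G u0 ∩ S
      · obtain ⟨i, hi, hi', he⟩ := hp3 v hvP
        exact ⟨i, by omega, by rw [hfp i hi hi', he]⟩
      · obtain ⟨i, hi, he⟩ := hg3 v (by
          rw [Finset.mem_sdiff, Finset.mem_erase]
          exact ⟨⟨hv0, hv⟩, hvP⟩)
        refine ⟨i + al + 1, by omega, ?_⟩
        rw [hfg _ (by omega), show i + al + 1 - al - 1 = i by omega, he]
  · intro u hu
    rw [hf0]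
    have hfu : f u ∈ S := by
      rcases hcase u with rfl | hi' | hi'
      · rw [hf0]; exact hu0
      · exact (Finset.mem_inter.1 (hpP u hi'.1 hi'.2)).2
      · exact (hgR u hi' hu).1
    exact hmin0 (f u) hfu
  · rw [hf0]; exact hA0
  · intro v hv
    rw [hf0]
    rcases hcase v with rfl | hi' | hi'
    · rw [hf0]
      exact ⟨fun h => absurd h (c.hG _ _ h), fun h => by omega⟩
    · exact ⟨fun _ => hi', fun _ => (mem_N G).1 (Finset.mem_inter.1 (hpP v hi'.1 hi'.2)).1⟩
    · refine ⟨fun h => absurd ?_ (hgR v hi' hv).2.2, fun h => by omega⟩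
      rw [Finset.mem_inter, mem_N]
      exact ⟨h, (hgR v hi' hv).1⟩
  · intro hal
    rw [hfp 2 (by omega) (by omega), hfp 1 (by omega) (by omega)]
    exact hp4 hal
  · intro u hu hu'
    have hk := hg4 (u - al - 1) (by omega)
    rw [← hfg u hu, show u - al - 1 + 1 = u + 1 - al - 1 by omega, ← hfg (u + 1) (by omega)] at hk
    simp only [key, hf0, hfp al h1 le_rfl, hfp 1 le_rfl h1]
    exact hk

end Pool.Agent.H39.S7
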