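import Pool.Agent.H39.S7.G.L1
import Pool.Agent.H39.S7.G.L2
import Pool.Agent.H39.S7.G.L3
import Pool.Agent.H39.S7.G.Lab

/-! The finite system from the configuration. -/

set_option autoImplicit false

namespace Pool.Agent.H39.S7

open Classical Pool.Agent.H39.Burckel

private theorem mk_card {V : Type} (f : ℕ → V) (S : Finset V) (n : ℕ)
    (hi : ∀ i < n, ∀ j < n, f i = f j → i = j) (hm : ∀ i < n, f i ∈ S)
    (hs : ∀ v ∈ S, ∃ i < n, f i = v) (p : V → Prop) [DecidablePred p]
    (q : ℕ → Prop) [DecidablePred q] (hq : ∀ i < n, (q i ↔ p (f i))) :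
    ((Finset.range n).filter q).card = (S.filter p).card := by
  apply Finset.card_nbij f
  · intro i h
    rw [Finset.mem_coe, Finset.mem_filter, Finset.mem_range] at h
    rw [Finset.mem_coe, Finset.mem_filter]
    exact ⟨hm i h.1, (hq i h.1).1 h.2⟩
  · intro i h j h' e
    rw [Finset.mem_coe, Finset.mem_filter, Finset.mem_range] at h h'
    exact hi i h.1 j h'.1 e
  · intro v h
    rw [Finset.mem_coe, Finset.mem_filter] at h
    obtain ⟨i, h1, h2⟩ := hs v h.1
    refine ⟨i, ?_, h2⟩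
    rw [Finset.mem_coe, Finset.mem_filter, Finset.mem_range]
    refine ⟨h1, (hq i h1).2 ?_⟩
    rw [h2]
    exact h.2

private theorem mk_sum {V : Type} (f : ℕ → V) (S : Finset V) (n : ℕ)
    (hi : ∀ i < n, ∀ j < n, f i = f j → i = j) (hm : ∀ i < n, f i ∈ S)
    (hs : ∀ v ∈ S, ∃ i < n, f i = v) (p : V → Prop) [DecidablePred p]
    (q : ℕ → Prop) [DecidablePred q] (hq : ∀ i < n, (q i ↔ p (f i))) (F : V → ℕ) :
    ∑ i ∈ (Finset.range n).filter q, F (f i) = ∑ v ∈ S.filter p, F v := by
  apply Finset.sum_nbij f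
  · intro i h
    rw [Finset.mem_filter, Finset.mem_range] at h
    rw [Finset.mem_filter]
    exact ⟨hm i h.1, (hq i h.1).1 h.2⟩
  · intro i h j h' e
    rw [Finset.mem_coe, Finset.mem_filter, Finset.mem_range] at h h'
    exact hi i h.1 j h'.1 e
  · intro v h
    rw [Finset.mem_coe, Finset.mem_filter] at h
    obtain ⟨i, h1, h2⟩ := hs v h.1
    refine ⟨i, ?_, h2⟩
    rw [Finset.mem_coe, Finset.mem_filter, Finset.mem_range]
    refine ⟨h1, (hq i h1).2 ?_⟩
    rw [h2]
    exact h.2
  · intro i _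
    rfl

private theorem mk_rk_le (b : ℕ → ℕ → Prop) (y : ℕ) : rk b y ≤ 127 := by
  unfold rk
  split_ifs <;> omega

variable {V : Type} [Fintype V] {G : Digraph V} {S M W : Finset V}

theorem Cfg7.exists_sys (c : Cfg7 G S M W) {al : ℕ} (h1 : 1 ≤ al) (h2 : al ≤ 2)
    (hex : ∃ u ∈ S, cA G S u = al) (hmin : ∀ u ∈ S, al ≤ cA G S u) :
    Nonempty (Sys M.card (cT G S M) W.card al) := by
  obtain ⟨f, f1, f2, f3, f4, f5, f6, f7, f8⟩ := c.exists_lab h1 h2 hex hmin
  have hI : Inhabited V := ⟨f 0⟩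
  obtain ⟨g, g1, g2, g3, g4⟩ := exists_sorted M
    (fun v => 127 - rk (fun _ j => G.Adj v (f j)) 0)
  have hcA : ∀ v : V, (N G v ∩ S).card = (S.filter fun w => G.Adj v w).card := by
    intro v
    congr 1
    ext w
    rw [Finset.mem_inter, mem_N, Finset.mem_filter]
    exact and_comm
  have hcC : ∀ v : V, (N2 G v ∩ S).card = (S.filter fun w => w ∈ N2 G v).card := by
    intro v
    congr 1
    ext w
    rw [Finset.mem_inter, Finset.mem_filter]
    exact and_comm
  refine ⟨{
    a := fun i j => G.Adj (f i) (f j)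
    n := fun i j => f j ∈ N2 G (f i)
    b := fun y v => G.Adj (g y) (f v)
    A := fun i => cA G S (f i)
    C := fun i => cC G S (f i)
    D := fun i => cD G M (f i)
    t := fun i => inc G M (f i)
    z := fun i => cz G M (f i)
    B := fun y => (N G (g y) ∩ S).card
    h_or := ?_
    hA := ?_
    hC := ?_
    h_nx := ?_
    h_n2 := ?_
    h_nM := ?_
    h_deg := ?_
    hT := ?_
    hb := ?_
    hB := ?_
    h_need := ?_
    h_needb := ?_
    h_full := ?_
    h_z1 := ?_
    h_z2 := ?_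
    h_F3 := ?_
    h_min := ?_
    h_al := ?_
    h_fix := ?_
    h_21 := ?_
    h_key := ?_
    h_row := ?_ }⟩
  · intro u _ v _ h
    exact c.hG _ _ h
  · intro u _
    show (N G (f u) ∩ S).card = _
    rw [hcA]
    exact (mk_card f S 7 f1 f2 f3 _ _ fun i _ => Iff.rfl).symm
  · intro u _
    show (N2 G (f u) ∩ S).card = _
    rw [hcC]
    exact (@mk_card V f S 7 f1 f2 f3 (fun w => w ∈ N2 G (f u)) _ (fun v => f v ∈ N2 G (f u))
      (fun _ => Classical.propDecidable _) fun i _ => Iff.rfl).symm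
  · intro u _ v _ h
    have h' := (mem_N2 G).1 h
    refine ⟨h'.2.1, ?_⟩
    rintro rfl
    exact h'.1 rfl
  · intro u _ w _ v _ h h' _ h''
    exact mem_N2_of G c.hG h h' h''
  · intro u hu v hv h h' h''
    exact c.nM h (fun e => h' (f1 u hu v hv e)) h''
  · intro u hu
    have h := c.deg (f2 u hu)
    exact ⟨h.1, h.2.1, h.2.2.1, h.2.2.2.1⟩
  · have h := mk_sum f S 7 f1 f2 f3 (fun _ => True) (fun _ => True) (fun i _ => Iff.rfl) (fun v => inc G M v)
    rw [Finset.filter_true_of_mem (fun _ _ => trivial), Finset.filter_true_of_mem (fun _ _ => trivial)] at h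
    exact h
  · intro v _
    show (M.filter fun y => G.Adj y (f v)).card = _
    exact (mk_card g M M.card g1 g2 g3 _ _ fun i _ => Iff.rfl).symm
  · intro y _
    show (N G (g y) ∩ S).card = _
    rw [hcA]
    exact (mk_card f S 7 f1 f2 f3 _ _ fun i _ => Iff.rfl).symm
  · intro u hu X hX huX h
    have e1 : ∀ i ∈ X, i < 7 := fun i hi => Finset.mem_range.1 (hX hi)
    have h' := c.need_X (f2 u hu) (X.image f) (by
      intro v hv
      obtain ⟨i, hi, rfl⟩ := Finset.mem_image.1 hv
      exact f2 i (e1 i hi)) (by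
      intro hv
      obtain ⟨i, hi, he⟩ := Finset.mem_image.1 hv
      rw [f1 i (e1 i hi) u hu he] at hi
      exact huX hi) (by
      intro v hv
      obtain ⟨i, hi, rfl⟩ := Finset.mem_image.1 hv
      exact h i hi)
    rw [Finset.sum_image (by
      intro i hi j hj e
      exact f1 i (e1 i hi) j (e1 j hj) e)] at h'
    exact h'
  · intro u hu
    have h' := c.need_b (f2 u hu)
    rw [← mk_sum g M M.card g1 g2 g3 (fun y => G.Adj y (f u)) (fun y => G.Adj (g y) (f u)) (fun i _ => Iff.rfl)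
      (fun y => (N G y ∩ S).card)] at h'
    exact h'
  · intro u hu h
    exact c.full (f2 u hu) h
  · intro u hu
    exact c.z1 (f2 u hu)
  · intro u hu v hv h
    exact c.z2 (f2 u hu) (f2 v hv) h
  · intro u hu _
    exact c.F3 (f2 u hu) (c.deg (f2 u hu)).2.2.1
  · exact f4
  · exact f5
  · exact f6
  · exact f7
  · exact f8
  · intro y hy
    have h := g4 y hy
    have e1 := mk_rk_le (fun _ j => G.Adj (g y) (f j)) 0
    have e2 : rk (fun y v => G.Adj (g y) (f v)) (y + 1) = rk (fun _ j => G.Adj (g (y + 1)) (f j)) 0 := rfl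
    have e3 : rk (fun y v => G.Adj (g y) (f v)) y = rk (fun _ j => G.Adj (g y) (f j)) 0 := rfl
    have e4 := mk_rk_le (fun _ j => G.Adj (g (y + 1)) (f j)) 0
    rw [e2, e3]
    omega

end Pool.Agent.H39.S7
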